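import Mathlib
import Pool.Agent.TH286.GT.All

/-!
# Window independence for smooth multiples: the relation given by the subspace theorem
-/

set_option autoImplicit false

open Finset Filter Topology

namespace Pool.Agent.TH419.WI

open Pool.Agent.TH286.GT

/-- the product of the powers `g v ^ e v` -/
def mon {k : ℕ} (g : Fin k → ℕ) (e : Fin k → ℕ) : ℤ := ∏ v, (g v : ℤ) ^ (e v)

lemma mon_pos {k : ℕ} {g : Fin k → ℕ} (hg : ∀ v, 0 < g v) (e : Fin k → ℕ) : 0 < mon g e := by
  unfold mon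
  apply Finset.prod_pos
  intro v _
  have := hg v
  positivity

lemma mon_zero {k : ℕ} (g : Fin k → ℕ) : mon g 0 = 1 := by simp [mon]

/-- the numbers attached to the places -/
def lamV {n k : ℕ} (O : Type) [CommRing O] (g : Fin k → ℕ) (v : Fin (k * n)) (l : Fin n) : O :=
  if (finProdFinEquiv.symm v).2 = l then (g (finProdFinEquiv.symm v).1 : O) else 1

/-- the exponents -/
def kkV {n k : ℕ} (e : Fin n → Fin k → ℕ) (v : Fin (k * n)) : ℕ :=
  e (finProdFinEquiv.symm v).2 (finProdFinEquiv.symm v).1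

lemma bet_eq {n k : ℕ} (O : Type) [CommRing O] (g : Fin k → ℕ) (e : Fin n → Fin k → ℕ)
    (l : Fin n) : bet (lamV (n := n) O g) (kkV e) l = ((mon g (e l) : ℤ) : O) := by
  unfold bet lamV kkV mon
  rw [← Equiv.prod_comp (finProdFinEquiv (m := k) (n := n))]
  simp only [Equiv.symm_apply_apply]
  rw [Fintype.prod_prod_type]
  push_cast
  apply Finset.prod_congr rfl
  intro a _
  rw [Finset.prod_eq_single l]
  · simp
  · intro i _ hi
    rw [if_neg hi, one_pow]
  · intro h
    exact absurd (Finset.mem_univ l) h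

/-- the subspace theorem for diagonal lattices, with conditions that hold eventually -/
theorem subDiag (O : Type) [CommRing O] [IsDomain O] [CharZero O] [Module.Free ℤ O]
    [Module.Finite ℤ O]
    (φ : O →+* ℂ) {n k : ℕ} (hn : 1 ≤ n) (g : Fin k → ℕ) (hg : ∀ v, 0 < g v)
    (M0 : Matrix (Fin n) (Fin n) O) (hdet : M0.det ≠ 0) (him : ∀ i j, (φ (M0 i j)).im = 0)
    (c γ : ℝ) (hc : 1 ≤ c) (hγ : 0 < γ) (N : ℕ → ℝ) (hN : Tendsto N atTop atTop)
    (e : ℕ → Fin n → Fin k → ℕ) (A : ℕ → Fin n → ℝ) (z : ℕ → Fin n → ℤ)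
    (h1 : ∀ᶠ t in atTop, ∑ l, Real.log (mon g (e t l) : ℤ) ≤ c * N t)
    (h2 : ∀ᶠ t in atTop, ∀ l, 0 < A t l)
    (h3 : ∀ᶠ t in atTop, ∀ l, |Real.log (A t l)| ≤ c * N t)
    (h4 : ∀ᶠ t in atTop, ∑ l, Real.log (A t l) + γ * N t ≤ ∑ l, Real.log (mon g (e t l) : ℤ))
    (h5 : ∀ᶠ t in atTop, z t ≠ 0)
    (h6 : ∀ᶠ t in atTop, ∀ l, ‖φ (∑ j, M0 l j * ((mon g (e t j) * z t j : ℤ) : O))‖ ≤ A t l) :
    ∃ y : Fin n → ℤ, y ≠ 0 ∧ ∃ᶠ t in atTop, ∑ l, y l * (mon g (e t l) * z t l) = 0 := by
  classical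
  obtain ⟨T, hT⟩ := eventually_atTop.1 (h1.and (h2.and (h3.and (h4.and (h5.and h6)))))
  have hB : ∀ t, (Matrix.diagonal (fun l => mon g (e t l))).det = ∏ l, mon g (e t l) := fun t =>
    Matrix.det_diagonal
  have hlogB : ∀ t, Real.log |((Matrix.diagonal (fun l => mon g (e t l))).det : ℝ)| =
      ∑ l, Real.log (mon g (e t l) : ℤ) := by
    intro t
    rw [hB t, Real.log_abs]
    push_cast
    rw [Real.log_prod]
    intro l _
    have := mon_pos hg (e t l)
    exact_mod_cast this.ne'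
  obtain ⟨y, hy, hfr⟩ := subspaceO O φ n (k * n) hn M0 1 (lamV O g)
    ⟨hdet, him, by rw [Matrix.det_one]; exact one_ne_zero, by
      intro v l
      unfold lamV
      split_ifs
      · exact_mod_cast (hg _).ne'
      · exact one_ne_zero⟩ c γ hc hγ (fun t => N (t + T)) (hN.comp (tendsto_add_atTop_nat T))
    (fun t => kkV (e (t + T))) (fun t => Matrix.diagonal (fun l => mon g (e (t + T) l)))
    (by
      intro t
      refine ⟨?_, ?_⟩
      · rw [hB]
        exact Finset.prod_ne_zero_iff.2 fun l _ => (mon_pos hg _).ne'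
      · rw [one_mul, mul_one]
        ext i j
        rw [Matrix.map_apply, Matrix.diagonal_apply, Matrix.diagonal_apply]
        split_ifs with hij
        · rw [bet_eq]
          rfl
        · simp)
    (fun t => A (t + T))
    (by
      intro t
      obtain ⟨g1, g2, g3, g4, g5, g6⟩ := hT (t + T) (Nat.le_add_left _ _)
      refine ⟨?_, g2, g3, ?_⟩
      · rw [hlogB]; exact g1
      · rw [hlogB]; exact g4)
    (fun t l => mon g (e (t + T) l) * z (t + T) l)
    (by
      intro t h0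
      obtain ⟨g1, g2, g3, g4, g5, g6⟩ := hT (t + T) (Nat.le_add_left _ _)
      apply g5
      funext l
      have h7 := congrFun h0 l
      simp only [Pi.zero_apply, mul_eq_zero] at h7
      exact h7.resolve_left (mon_pos hg _).ne')
    (by
      intro t
      obtain ⟨g1, g2, g3, g4, g5, g6⟩ := hT (t + T) (Nat.le_add_left _ _)
      refine ⟨g6, z (t + T), ?_⟩
      funext l
      rw [Matrix.mulVec_diagonal])
  refine ⟨y, hy, ?_⟩
  exact (tendsto_add_atTop_nat T).frequently hfr

end Pool.Agent.TH419.WI
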