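import Mathlib
import Pool.Agent.TH419.WI.Rel

set_option autoImplicit false

open Finset Filter Topology

namespace Pool.Agent.TH419.WI

open Pool.Agent.TH286.GT

/-- a small value of a linear form in almost-units gives a linear relation infinitely often -/
theorem rel (O : Type) [CommRing O] [IsDomain O] [CharZero O] [Module.Free ℤ O]
    [Module.Finite ℤ O] (φ : O →+* ℂ) (hreal : ∀ x, (φ x).im = 0) {n k : ℕ} (g : Fin k → ℕ)
    (hg : ∀ v, 0 < g v) (i0 : Fin n) (v : Fin n → O) (hv : v i0 ≠ 0) (C δ : ℝ) (hC : 0 ≤ C)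
    (hδ : 0 < δ) (L : ℕ → ℝ) (hL : Tendsto L atTop atTop)
    (e : ℕ → Fin n → Fin k → ℕ) (z : ℕ → Fin n → ℤ)
    (h1 : ∀ᶠ t in atTop, ∀ l, ((mon g (e t l) : ℤ) : ℝ) ≤ Real.exp (C * L t))
    (h2 : ∀ ε : ℝ, 0 < ε → ∀ᶠ t in atTop, ∀ l, l ≠ i0 → |(z t l : ℝ)| ≤ Real.exp (ε * L t))
    (h3 : ∀ᶠ t in atTop, z t ≠ 0)
    (h4 : ∀ᶠ t in atTop, ‖φ (∑ l, v l * ((mon g (e t l) * z t l : ℤ) : O))‖ ≤
      ((mon g (e t i0) : ℤ) : ℝ) * Real.exp (-(δ * L t))) :
    ∃ y : Fin n → ℤ, y ≠ 0 ∧ ∃ᶠ t in atTop, ∑ l, y l * (mon g (e t l) * z t l) = 0 := by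
  classical
  have hn : 1 ≤ n := by
    have := i0.isLt
    omega
  have hnR : (1 : ℝ) ≤ n := by exact_mod_cast hn
  set ε : ℝ := δ / (2 * n) with hε
  have hε0 : 0 < ε := by rw [hε]; positivity
  have hεδ : ε ≤ δ := by
    rw [hε, div_le_iff₀ (by positivity)]
    nlinarith
  have hεn : n * ε = δ / 2 := by
    rw [hε]; field_simp
  set c : ℝ := n * C + δ + 1 with hc
  have hc1 : 1 ≤ c := by
    have : 0 ≤ n * C := by positivity
    linarith
  have hL0 : ∀ᶠ t in atTop, 0 ≤ L t := hL.eventually_ge_atTop 0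
  set A : ℕ → Fin n → ℝ := fun t l => if l = i0 then
    ((mon g (e t i0) : ℤ) : ℝ) * Real.exp (-(δ * L t)) else
    Real.exp (ε * L t) * ((mon g (e t l) : ℤ) : ℝ) with hA
  have hmpos : ∀ t l, (0 : ℝ) < ((mon g (e t l) : ℤ) : ℝ) := fun t l => by
    exact_mod_cast mon_pos hg (e t l)
  have hmone : ∀ t l, (1 : ℝ) ≤ ((mon g (e t l) : ℤ) : ℝ) := fun t l => by
    have := mon_pos hg (e t l)
    exact_mod_cast this
  have hlog0 : ∀ t l, 0 ≤ Real.log ((mon g (e t l) : ℤ) : ℝ) := fun t l => Real.log_nonneg (hmone t l)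
  have hlogC : ∀ᶠ t in atTop, ∀ l, Real.log ((mon g (e t l) : ℤ) : ℝ) ≤ C * L t := by
    filter_upwards [h1] with t ht l
    rw [Real.log_le_iff_le_exp (hmpos t l)]
    exact ht l
  have hlogA : ∀ t l, Real.log (A t l) = if l = i0 then
      Real.log ((mon g (e t i0) : ℤ) : ℝ) + -(δ * L t) else
      ε * L t + Real.log ((mon g (e t l) : ℤ) : ℝ) := by
    intro t l
    simp only [hA]
    split_ifs
    · rw [Real.log_mul (hmpos t i0).ne' (Real.exp_pos _).ne', Real.log_exp]
    · rw [Real.log_mul (Real.exp_pos _).ne' (hmpos t l).ne', Real.log_exp]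
  refine subDiag O φ hn g hg (Matrix.updateRow 1 i0 v) ?_ (fun i j => hreal _) c (δ / 2) hc1
    (by positivity) L hL e A z ?_ ?_ ?_ ?_ h3 ?_
  · have h5 := Matrix.cramer_transpose_apply (1 : Matrix (Fin n) (Fin n) O) v i0
    rw [Matrix.transpose_one, Matrix.cramer_one] at h5
    rw [← h5]
    exact hv
  · filter_upwards [hlogC, hL0] with t h5 h6
    refine (Finset.sum_le_sum fun l _ => h5 l).trans ?_
    rw [Finset.sum_const, Finset.card_univ, Fintype.card_fin, nsmul_eq_mul, hc]
    nlinarith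
  · refine Eventually.of_forall fun t l => ?_
    simp only [hA]
    split_ifs
    · exact mul_pos (hmpos t i0) (Real.exp_pos _)
    · exact mul_pos (Real.exp_pos _) (hmpos t l)
  · filter_upwards [hlogC, hL0] with t h5 h6 l
    rw [hlogA]
    have h7 : 0 ≤ (n : ℝ) * C * L t := by positivity
    have h8 : 0 ≤ (n - 1) * (C * L t) := mul_nonneg (by linarith) (by positivity)
    split_ifs
    · have h9 := h5 i0
      have h10 := hlog0 t i0
      have h11 : 0 ≤ δ * L t := by positivity
      rw [abs_le, hc]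
      constructor <;> nlinarith
    · rw [abs_of_nonneg (add_nonneg (by positivity) (hlog0 t l)), hc]
      have h9 := h5 l
      have h10 := mul_le_mul_of_nonneg_right hεδ h6
      nlinarith
  · filter_upwards [hL0] with t h6
    have h7 : ∀ l, Real.log (A t l) ≤ (Real.log ((mon g (e t l) : ℤ) : ℝ) + ε * L t) +
        (if l = i0 then -(δ * L t) else 0) := by
      intro l
      rw [hlogA]
      split_ifs with hl
      · rw [hl]
        have h8 : 0 ≤ ε * L t := by positivity
        linarith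
      · linarith
    have h8 := Finset.sum_le_sum fun l (_ : l ∈ (Finset.univ : Finset (Fin n))) => h7 l
    rw [Finset.sum_add_distrib, Finset.sum_add_distrib, Finset.sum_const, Finset.card_univ,
      Fintype.card_fin, nsmul_eq_mul, Finset.sum_ite_eq' Finset.univ i0,
      if_pos (Finset.mem_univ _)] at h8
    have h9 : (n : ℝ) * (ε * L t) = δ / 2 * L t := by rw [← mul_assoc, hεn]
    rw [h9] at h8
    linarith
  · filter_upwards [h4, h2 ε hε0] with t h5 h6 l
    simp only [hA]
    by_cases hl : l = i0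
    · subst hl
      rw [if_pos rfl]
      simp only [Matrix.updateRow_self]
      exact h5
    · rw [if_neg hl]
      simp only [Matrix.updateRow_ne hl]
      rw [Finset.sum_eq_single l]
      · rw [Matrix.one_apply_eq, one_mul, map_intCast, Complex.norm_intCast]
        push_cast
        rw [abs_mul, abs_of_pos (hmpos t l), mul_comm]
        exact mul_le_mul_of_nonneg_right (h6 l hl) (hmpos t l).le
      · intro j _ hj
        rw [Matrix.one_apply_ne hj.symm, zero_mul]
      · intro h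
        exact absurd (Finset.mem_univ l) h

end Pool.Agent.TH419.WI
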