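import Mathlib
import Pool.Agent.TH419.WI.Rel2

set_option autoImplicit false

open Finset Filter Topology

namespace Pool.Agent.TH419.WI

/-- a constant factor is absorbed by a small exponential -/
lemma ev_const_le {L : ℕ → ℝ} (hL : Tendsto L atTop atTop) (K ε : ℝ) (hε : 0 < ε) :
    ∀ᶠ t in atTop, K ≤ Real.exp (ε * L t) :=
  (Real.tendsto_exp_atTop.comp (hL.const_mul_atTop hε)).eventually_ge_atTop K

/-- the arithmetic claim for `s` terms, in terms of sequences; `mon g (e0 t)` is a common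
denominator -/
def Claim (O : Type) [CommRing O] (ρ : O →+* ℝ) {k : ℕ} (g : Fin k → ℕ) (C : ℝ) (s : ℕ) : Prop :=
  ∀ (η : Fin s → O) (δ : ℝ) (_ : 0 < δ) (L : ℕ → ℝ) (_ : Tendsto L atTop atTop)
    (e0 : ℕ → Fin k → ℕ) (e : ℕ → Fin s → Fin k → ℕ) (lam : ℕ → Fin s → ℤ) (P : ℕ → ℤ)
    (_ : ∀ᶠ t in atTop, ((mon g (e0 t) : ℤ) : ℝ) ≤ Real.exp (C * L t))
    (_ : ∀ᶠ t in atTop, ∀ i, mon g (e0 t) ≤ mon g (e t i))
    (_ : ∀ᶠ t in atTop, ∀ i, ((mon g (e t i) : ℤ) : ℝ) ≤ Real.exp (C * L t))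
    (_ : ∀ ε : ℝ, 0 < ε → ∀ᶠ t in atTop, ∀ i, |(lam t i : ℝ)| ≤ Real.exp (ε * L t))
    (_ : ∀ᶠ t in atTop, Irrational (∑ i, ρ (η i) * ((mon g (e t i) * lam t i : ℤ) : ℝ)))
    (_ : ∀ᶠ t in atTop, |∑ i, ρ (η i) * ((mon g (e t i) * lam t i : ℤ) : ℝ) -
      ((mon g (e0 t) * P t : ℤ) : ℝ)| ≤
      ((mon g (e0 t) : ℤ) : ℝ) * Real.exp (-(δ * L t))), False

lemma reduce {O : Type} [CommRing O] {ρ : O →+* ℝ} {k : ℕ} {g : Fin k → ℕ}
    (hg : ∀ v, 0 < g v) {C : ℝ} {s : ℕ}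
    (hcl : Claim O ρ g C s) (η : Fin (s + 1) → O)
    (δ : ℝ) (hδ : 0 < δ) (L : ℕ → ℝ) (hL : Tendsto L atTop atTop)
    (e0 : ℕ → Fin k → ℕ) (e : ℕ → Fin (s + 1) → Fin k → ℕ)
    (lam : ℕ → Fin (s + 1) → ℤ) (P : ℕ → ℤ)
    (h0 : ∀ᶠ t in atTop, ((mon g (e0 t) : ℤ) : ℝ) ≤ Real.exp (C * L t))
    (h0' : ∀ᶠ t in atTop, ∀ i, mon g (e0 t) ≤ mon g (e t i))
    (h1 : ∀ᶠ t in atTop, ∀ i, ((mon g (e t i) : ℤ) : ℝ) ≤ Real.exp (C * L t))
    (h2 : ∀ ε : ℝ, 0 < ε → ∀ᶠ t in atTop, ∀ i, |(lam t i : ℝ)| ≤ Real.exp (ε * L t))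
    (h3 : ∀ᶠ t in atTop, Irrational (∑ i, ρ (η i) * ((mon g (e t i) * lam t i : ℤ) : ℝ)))
    (h4 : ∀ᶠ t in atTop, |∑ i, ρ (η i) * ((mon g (e t i) * lam t i : ℤ) : ℝ) -
      ((mon g (e0 t) * P t : ℤ) : ℝ)| ≤
      ((mon g (e0 t) : ℤ) : ℝ) * Real.exp (-(δ * L t)))
    (y : Fin (s + 1) → ℤ) (hy : y ≠ 0)
    (hfr : ∃ᶠ t in atTop, ∑ l, y l * (mon g (e t l) * lam t l) = 0) : False := by
  classical
  obtain ⟨i1, hi1⟩ : ∃ i, y i ≠ 0 := by
    by_contra hcon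
    push Not at hcon
    exact hy (funext hcon)
  obtain ⟨ψ, hψ, hrel⟩ := Filter.extraction_of_frequently_atTop hfr
  have hψt := hψ.tendsto_atTop
  have hLψ : Tendsto (L ∘ ψ) atTop atTop := hL.comp hψt
  have hkey : ∀ n, ∑ j : Fin s, ρ (((y i1 : ℤ) : O) * η (i1.succAbove j) -
      ((y (i1.succAbove j) : ℤ) : O) * η i1) *
      ((mon g (e (ψ n) (i1.succAbove j)) * lam (ψ n) (i1.succAbove j) : ℤ) : ℝ) =
      (y i1 : ℝ) * ∑ i, ρ (η i) * ((mon g (e (ψ n) i) * lam (ψ n) i : ℤ) : ℝ) := by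
    intro n
    have h5 : (y i1 : ℝ) * ∑ i, ρ (η i) * ((mon g (e (ψ n) i) * lam (ψ n) i : ℤ) : ℝ) =
        ∑ i, ρ (((y i1 : ℤ) : O) * η i - ((y i : ℤ) : O) * η i1) *
          ((mon g (e (ψ n) i) * lam (ψ n) i : ℤ) : ℝ) := by
      have h6 : ∑ i, (y i : ℝ) * ((mon g (e (ψ n) i) * lam (ψ n) i : ℤ) : ℝ) = 0 := by
        exact_mod_cast hrel n
      have h7 : ∀ i, ρ (((y i1 : ℤ) : O) * η i - ((y i : ℤ) : O) * η i1) *
          ((mon g (e (ψ n) i) * lam (ψ n) i : ℤ) : ℝ) =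
          (y i1 : ℝ) * (ρ (η i) * ((mon g (e (ψ n) i) * lam (ψ n) i : ℤ) : ℝ)) -
          ρ (η i1) * ((y i : ℝ) * ((mon g (e (ψ n) i) * lam (ψ n) i : ℤ) : ℝ)) := by
        intro i
        rw [map_sub, map_mul, map_mul, map_intCast, map_intCast]
        ring
      simp only [h7]
      rw [Finset.sum_sub_distrib, ← Finset.mul_sum, ← Finset.mul_sum, h6, mul_zero, sub_zero]
    rw [h5, Fin.sum_univ_succAbove _ i1, sub_self, map_zero, zero_mul, zero_add]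
  refine hcl (fun j => ((y i1 : ℤ) : O) * η (i1.succAbove j) -
      ((y (i1.succAbove j) : ℤ) : O) * η i1) (δ / 2) (by positivity) (L ∘ ψ) hLψ
    (fun n => e0 (ψ n)) (fun n j => e (ψ n) (i1.succAbove j))
    (fun n j => lam (ψ n) (i1.succAbove j))
    (fun n => y i1 * P (ψ n)) (hψt.eventually h0) ?_ ?_ ?_ ?_ ?_
  · filter_upwards [hψt.eventually h0'] with n h5 j
    exact h5 _
  · filter_upwards [hψt.eventually h1] with n h5 j
    exact h5 _
  · intro ε hε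
    filter_upwards [hψt.eventually (h2 ε hε)] with n h5 j
    exact h5 _
  · filter_upwards [hψt.eventually h3] with n h5
    rw [hkey n, irrational_intCast_mul_iff]
    exact ⟨hi1, h5⟩
  · filter_upwards [hψt.eventually h4, ev_const_le hLψ |((y i1 : ℤ) : ℝ)| (δ / 2)
      (by positivity)] with n h5 h6
    rw [hkey n]
    have hm : (0 : ℝ) < ((mon g (e0 (ψ n)) : ℤ) : ℝ) := by exact_mod_cast mon_pos hg _
    have h7 : (y i1 : ℝ) * ∑ i, ρ (η i) * ((mon g (e (ψ n) i) * lam (ψ n) i : ℤ) : ℝ) -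
        ((mon g (e0 (ψ n)) * (y i1 * P (ψ n)) : ℤ) : ℝ) = (y i1 : ℝ) *
        (∑ i, ρ (η i) * ((mon g (e (ψ n) i) * lam (ψ n) i : ℤ) : ℝ) -
          ((mon g (e0 (ψ n)) * P (ψ n) : ℤ) : ℝ)) := by
      push_cast; ring
    rw [h7, abs_mul]
    calc |(y i1 : ℝ)| * |∑ i, ρ (η i) * ((mon g (e (ψ n) i) * lam (ψ n) i : ℤ) : ℝ) -
          ((mon g (e0 (ψ n)) * P (ψ n) : ℤ) : ℝ)|
        ≤ Real.exp (δ / 2 * (L ∘ ψ) n) *
          (((mon g (e0 (ψ n)) : ℤ) : ℝ) * Real.exp (-(δ * L (ψ n)))) :=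
          mul_le_mul h6 h5 (abs_nonneg _) (Real.exp_pos _).le
      _ = ((mon g (e0 (ψ n)) : ℤ) : ℝ) *
          (Real.exp (δ / 2 * (L ∘ ψ) n) * Real.exp (-(δ * L (ψ n)))) := by ring
      _ = ((mon g (e0 (ψ n)) : ℤ) : ℝ) * Real.exp (-(δ / 2 * (L ∘ ψ) n)) := by
          rw [← Real.exp_add]; congr 2; simp only [Function.comp]; ring

lemma claim_succ (O : Type) [CommRing O] [IsDomain O] [CharZero O] [Module.Free ℤ O]
    [Module.Finite ℤ O] (ρ : O →+* ℝ) {k : ℕ} {g : Fin k → ℕ}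
    (hg : ∀ v, 0 < g v) {C : ℝ} (hC : 0 ≤ C) {s : ℕ} (hcl : Claim O ρ g C s) :
    Claim O ρ g C (s + 1) := by
  classical
  intro η δ hδ L hL e0 e lam P h0 h0' h1 h2 h3 h4
  let φ : O →+* ℂ := (Complex.ofRealHom).comp ρ
  have hφ : ∀ x : O, φ x = ((ρ x : ℝ) : ℂ) := fun x => rfl
  have hreal : ∀ x : O, (φ x).im = 0 := fun x => Complex.ofReal_im _
  have hnorm : ∀ x : O, ‖φ x‖ = |ρ x| := fun x => by rw [hφ, Complex.norm_real]; rfl
  have hL0 : ∀ᶠ t in atTop, 0 ≤ L t := hL.eventually_ge_atTop 0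
  have hz : ∀ᶠ t in atTop, lam t ≠ 0 := by
    filter_upwards [h3] with t h5 h0
    have h6 : ∑ i, ρ (η i) * ((mon g (e t i) * lam t i : ℤ) : ℝ) = 0 := by
      apply Finset.sum_eq_zero
      intro i _
      rw [h0]
      simp
    rw [h6] at h5
    exact not_irrational_zero h5
  obtain ⟨y, hy, hfr⟩ := rel O φ hreal g hg (0 : Fin (s + 2))
    (Fin.cons (-1 : O) η) (by simp) C δ hC hδ L hL
    (fun t => Fin.cons (e0 t) (e t)) (fun t => Fin.cons (P t) (lam t))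
    (by
      filter_upwards [h1, h0] with t h5 h6 l
      refine Fin.cases ?_ (fun i => ?_) l
      · rw [Fin.cons_zero]
        exact h6
      · rw [Fin.cons_succ]
        exact h5 i)
    (by
      intro ε hε
      filter_upwards [h2 ε hε] with t h5 l hl
      obtain ⟨i, rfl⟩ := Fin.exists_succ_eq.2 hl
      rw [Fin.cons_succ]
      exact h5 i)
    (by
      filter_upwards [hz] with t h5 h0
      apply h5
      funext i
      have h6 := congrFun h0 i.succ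
      rwa [Fin.cons_succ, Pi.zero_apply] at h6)
    (by
      filter_upwards [h4] with t h5
      rw [hnorm, Fin.sum_univ_succ]
      simp only [Fin.cons_zero, Fin.cons_succ]
      refine le_trans (le_of_eq ?_) h5
      congr 1
      rw [map_add, map_sum, map_mul, map_neg, map_one, map_intCast]
      simp only [map_mul, map_intCast, neg_mul, one_mul]
      ring)
  have hfr' : ∃ᶠ t in atTop, y 0 * (mon g (e0 t) * P t) +
      ∑ i : Fin (s + 1), y i.succ * (mon g (e t i) * lam t i) = 0 := by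
    refine hfr.mono fun t ht => ?_
    rw [Fin.sum_univ_succ] at ht
    simpa only [Fin.cons_zero, Fin.cons_succ] using ht
  by_cases hy0 : y 0 = 0
  · refine reduce hg hcl η δ hδ L hL e0 e lam P h0 h0' h1 h2 h3 h4 (fun i => y i.succ) ?_ ?_
    · intro h0
      apply hy
      funext l
      refine Fin.cases ?_ (fun i => ?_) l
      · exact hy0
      · exact congrFun h0 i
    · refine hfr'.mono fun t ht => ?_
      rw [hy0, zero_mul, zero_add] at ht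
      exact ht
  · obtain ⟨ψ, hψ, hrel⟩ := Filter.extraction_of_frequently_atTop hfr'
    have hψt := hψ.tendsto_atTop
    have hLψ : Tendsto (L ∘ ψ) atTop atTop := hL.comp hψt
    have hy0R : (y 0 : ℝ) ≠ 0 := by exact_mod_cast hy0
    have h7 : ∀ n, ρ (∑ l, (((y 0 : ℤ) : O) * η l + ((y (Fin.succ l) : ℤ) : O)) *
        ((mon g (e (ψ n) l) * lam (ψ n) l : ℤ) : O)) = (y 0 : ℝ) *
        (∑ i, ρ (η i) * ((mon g (e (ψ n) i) * lam (ψ n) i : ℤ) : ℝ) -
          ((mon g (e0 (ψ n)) * P (ψ n) : ℤ) : ℝ)) := by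
      intro n
      have h8 : (y 0 : ℝ) * ((mon g (e0 (ψ n)) * P (ψ n) : ℤ) : ℝ) +
          ∑ i : Fin (s + 1), (y i.succ : ℝ) *
          ((mon g (e (ψ n) i) * lam (ψ n) i : ℤ) : ℝ) = 0 := by
        exact_mod_cast hrel n
      have h9 : ∀ l : Fin (s + 1), ρ ((((y 0 : ℤ) : O) * η l + ((y (Fin.succ l) : ℤ) : O)) *
          ((mon g (e (ψ n) l) * lam (ψ n) l : ℤ) : O)) =
          (y 0 : ℝ) * (ρ (η l) * ((mon g (e (ψ n) l) * lam (ψ n) l : ℤ) : ℝ)) +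
          (y (Fin.succ l) : ℝ) * ((mon g (e (ψ n) l) * lam (ψ n) l : ℤ) : ℝ) := by
        intro l
        rw [map_mul, map_add, map_mul, map_intCast, map_intCast, map_intCast]
        ring
      rw [map_sum]
      simp only [h9]
      rw [Finset.sum_add_distrib, ← Finset.mul_sum, mul_sub]
      linarith
    obtain ⟨i0, hi0⟩ : ∃ i, ((y 0 : ℤ) : O) * η i + ((y (Fin.succ i) : ℤ) : O) ≠ 0 := by
      by_contra hno
      push Not at hno
      obtain ⟨n, hn⟩ := (hψt.eventually h3).exists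
      have h10 := h7 n
      simp only [hno, zero_mul, Finset.sum_const_zero, map_zero] at h10
      have h11 := (mul_eq_zero.1 h10.symm).resolve_left hy0R
      rw [sub_eq_zero] at h11
      rw [h11] at hn
      exact hn.ne_int _ rfl
    obtain ⟨y', hy', hfr2⟩ := rel O φ hreal g hg i0
      (fun i => ((y 0 : ℤ) : O) * η i + ((y i.succ : ℤ) : O))
      hi0 C (δ / 2) hC (by positivity) (L ∘ ψ) hLψ
      (fun n => e (ψ n)) (fun n => lam (ψ n))
      (hψt.eventually h1)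
      (fun ε hε => (hψt.eventually (h2 ε hε)).mono fun n hn l _ => hn l)
      (hψt.eventually hz)
      (by
        filter_upwards [hψt.eventually h4, hψt.eventually h0',
          ev_const_le hLψ |((y 0 : ℤ) : ℝ)| (δ / 2) (by positivity)] with n h5 h5' h6
        have hm : (0 : ℝ) < ((mon g (e0 (ψ n)) : ℤ) : ℝ) := by exact_mod_cast mon_pos hg _
        have hm' : ((mon g (e0 (ψ n)) : ℤ) : ℝ) ≤ ((mon g (e (ψ n) i0) : ℤ) : ℝ) := by
          exact_mod_cast h5' i0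
        rw [hnorm, h7 n, abs_mul]
        calc |(y 0 : ℝ)| * |∑ i, ρ (η i) * ((mon g (e (ψ n) i) * lam (ψ n) i : ℤ) : ℝ) -
              ((mon g (e0 (ψ n)) * P (ψ n) : ℤ) : ℝ)|
            ≤ Real.exp (δ / 2 * (L ∘ ψ) n) *
              (((mon g (e0 (ψ n)) : ℤ) : ℝ) * Real.exp (-(δ * L (ψ n)))) :=
              mul_le_mul h6 h5 (abs_nonneg _) (Real.exp_pos _).le
          _ = ((mon g (e0 (ψ n)) : ℤ) : ℝ) *
              (Real.exp (δ / 2 * (L ∘ ψ) n) * Real.exp (-(δ * L (ψ n)))) := by ring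
          _ = ((mon g (e0 (ψ n)) : ℤ) : ℝ) * Real.exp (-(δ / 2 * (L ∘ ψ) n)) := by
              rw [← Real.exp_add]; congr 2; simp only [Function.comp]; ring
          _ ≤ ((mon g (e (ψ n) i0) : ℤ) : ℝ) * Real.exp (-(δ / 2 * (L ∘ ψ) n)) :=
              mul_le_mul_of_nonneg_right hm' (Real.exp_pos _).le)
    exact reduce hg hcl η δ hδ L hL e0 e lam P h0 h0' h1 h2 h3 h4 y' hy' (hψt.frequently hfr2)

lemma claim (O : Type) [CommRing O] [IsDomain O] [CharZero O] [Module.Free ℤ O]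
    [Module.Finite ℤ O] (ρ : O →+* ℝ) {k : ℕ} {g : Fin k → ℕ}
    (hg : ∀ v, 0 < g v) {C : ℝ} (hC : 0 ≤ C) (s : ℕ) : Claim O ρ g C s := by
  induction s with
  | zero =>
    intro η δ hδ L hL e0 e lam P h0 h0' h1 h2 h3 h4
    obtain ⟨t, ht⟩ := h3.exists
    rw [Finset.univ_eq_empty, Finset.sum_empty] at ht
    exact not_irrational_zero ht
  | succ s ih => exact claim_succ O ρ hg hC ih

end Pool.Agent.TH419.WI
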