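import Mathlib
import Pool.Agent.TH419.WI.Arith

set_option autoImplicit false

open Finset Filter Topology

namespace Pool.Agent.TH419.WI

/-- `r` is a positive integer all of whose prime factors lie in `S` -/
def Smooth (S : Finset ℕ) (r : ℕ) : Prop := r ≠ 0 ∧ r.primeFactors ⊆ S

/-- the elements of `S` as generators -/
noncomputable def gens (S : Finset ℕ) : Fin S.card → ℕ := fun v => (S.equivFin.symm v : ℕ)

/-- the exponents of a smooth number -/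
noncomputable def expo (S : Finset ℕ) (r : ℕ) : Fin S.card → ℕ := fun v => r.factorization (gens S v)

lemma gens_mem (S : Finset ℕ) (v : Fin S.card) : gens S v ∈ S := (S.equivFin.symm v).2

lemma mon_expo {S : Finset ℕ} {r : ℕ} (hr : Smooth S r) : mon (gens S) (expo S r) = (r : ℤ) := by
  obtain ⟨h1, h2⟩ := hr
  have h3 : r = ∏ p ∈ S, p ^ (r.factorization p) := by
    conv_lhs => rw [← Nat.prod_factorization_pow_eq_self h1]
    rw [Finsupp.prod_of_support_subset]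
    · rw [Nat.support_factorization]; exact h2
    · intro i _
      simp
  unfold mon expo gens
  have h4 : ∏ v : Fin S.card, (((S.equivFin.symm v : ℕ) : ℤ)) ^
      (r.factorization (S.equivFin.symm v : ℕ)) = ∏ p : S, (((p : ℕ) : ℤ)) ^
      (r.factorization (p : ℕ)) :=
    Equiv.prod_comp S.equivFin.symm (fun p : S => (((p : ℕ) : ℤ)) ^ (r.factorization (p : ℕ)))
  rw [h4, Finset.prod_coe_sort S (fun p => ((p : ℕ) : ℤ) ^ (r.factorization p))]
  conv_rhs => rw [h3]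
  push_cast
  rfl

/-- finitely many algebraic numbers have integral multiples in a finitely generated subring -/
lemma exists_order {n : ℕ} (ξ : Fin n → ℝ) (hξ : ∀ k, IsAlgebraic ℚ (ξ k)) :
    ∃ (A : Subalgebra ℤ ℝ) (d : ℤ), d ≠ 0 ∧ Module.Finite ℤ A ∧ ∀ k, (d : ℝ) * ξ k ∈ A := by
  classical
  have h1 : ∀ k, ∃ d : ℤ, d ≠ 0 ∧ IsIntegral ℤ ((d : ℝ) * ξ k) := by
    intro k
    obtain ⟨d, hd, hint⟩ :=
      IsAlgebraic.exists_integral_multiple ((IsFractionRing.isAlgebraic_iff ℤ ℚ ℝ).2 (hξ k))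
    rw [zsmul_eq_mul] at hint
    exact ⟨d, hd, hint⟩
  choose d hd hint using h1
  have h2 : ∀ k, IsIntegral ℤ (((∏ j, d j : ℤ) : ℝ) * ξ k) := by
    intro k
    rw [← Finset.mul_prod_erase Finset.univ d (Finset.mem_univ k)]
    have h3 : (((d k * ∏ j ∈ Finset.univ.erase k, d j : ℤ)) : ℝ) * ξ k =
        ((∏ j ∈ Finset.univ.erase k, d j : ℤ) : ℝ) * ((d k : ℝ) * ξ k) := by
      push_cast; ring
    rw [h3]
    refine IsIntegral.mul ?_ (hint k)
    exact isIntegral_algebraMap (R := ℤ) (A := ℝ) (x := ∏ j ∈ Finset.univ.erase k, d j)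
  refine ⟨Algebra.adjoin ℤ (Set.range fun k => ((∏ j, d j : ℤ) : ℝ) * ξ k), ∏ j, d j,
    Finset.prod_ne_zero_iff.2 fun j _ => hd j, ?_, ?_⟩
  · refine Module.Finite.iff_fg.2 (fg_adjoin_of_finite (Set.finite_range _) ?_)
    rintro _ ⟨k, rfl⟩
    exact h2 k
  · intro k
    exact Algebra.subset_adjoin ⟨k, rfl⟩

lemma arithFin {n : ℕ} (ξ : Fin n → ℝ) (hξ : ∀ k, IsAlgebraic ℚ (ξ k)) {k : ℕ} (g : Fin k → ℕ)
    (hg : ∀ v, 0 < g v) (H : ℕ) (C δ : ℝ) (hC : 0 ≤ C) (hδ : 0 < δ) (s : ℕ) (κ : Fin s → Fin n) :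
    ∃ L0 : ℕ, ∀ L : ℕ, L0 ≤ L → ∀ (e0 : Fin k → ℕ) (e : Fin s → Fin k → ℕ) (lam : Fin s → ℤ)
      (P : ℤ), ((mon g e0 : ℤ) : ℝ) ≤ Real.exp (C * L) → (∀ i, mon g e0 ≤ mon g (e i)) →
      (∀ i, ((mon g (e i) : ℤ) : ℝ) ≤ Real.exp (C * L)) → (∀ i, |lam i| ≤ H) →
      Irrational (∑ i, ξ (κ i) * ((mon g (e i) * lam i : ℤ) : ℝ)) →
      ((mon g e0 : ℤ) : ℝ) * Real.exp (-(δ * L)) <
        |∑ i, ξ (κ i) * ((mon g (e i) * lam i : ℤ) : ℝ) - ((mon g e0 * P : ℤ) : ℝ)| := by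
  by_contra hcon
  push Not at hcon
  choose L hL e0 e lam P h0 h0' h1 h2 h3 h4 using hcon
  have hLt : Tendsto (fun n => (L n : ℝ)) atTop atTop :=
    tendsto_natCast_atTop_atTop.comp (tendsto_atTop_mono hL tendsto_id)
  obtain ⟨A, d, hd, hfin, hA⟩ := exists_order ξ hξ
  have hdR : (d : ℝ) ≠ 0 := by exact_mod_cast hd
  let ρ : A →+* ℝ := A.val.toRingHom
  have hρ : ∀ x : A, ρ x = (x : ℝ) := fun x => rfl
  have hsum : ∀ m, ∑ i, ρ (⟨(d : ℝ) * ξ (κ i), hA _⟩ : A) *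
      ((mon g (e m i) * lam m i : ℤ) : ℝ) =
      (d : ℝ) * ∑ i, ξ (κ i) * ((mon g (e m i) * lam m i : ℤ) : ℝ) := by
    intro m
    rw [Finset.mul_sum]
    apply Finset.sum_congr rfl
    intro i _
    rw [hρ]
    ring
  refine claim A ρ hg hC s (fun i => (⟨(d : ℝ) * ξ (κ i), hA _⟩ : A)) (δ / 2) (by positivity)
    (fun n => (L n : ℝ)) hLt e0 e lam (fun n => d * P n) (Eventually.of_forall h0)
    (Eventually.of_forall h0') (Eventually.of_forall h1) ?_ ?_ ?_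
  · intro ε hε
    filter_upwards [ev_const_le hLt (H : ℝ) ε hε] with n h5 i
    refine le_trans ?_ h5
    exact_mod_cast h2 n i
  · refine Eventually.of_forall fun m => ?_
    rw [hsum m, irrational_intCast_mul_iff]
    exact ⟨hd, h3 m⟩
  · filter_upwards [ev_const_le hLt |(d : ℝ)| (δ / 2) (by positivity)] with m h5
    have h6 : (d : ℝ) * ∑ i, ξ (κ i) * ((mon g (e m i) * lam m i : ℤ) : ℝ) -
        ((mon g (e0 m) * (d * P m) : ℤ) : ℝ) =
        (d : ℝ) * (∑ i, ξ (κ i) * ((mon g (e m i) * lam m i : ℤ) : ℝ) -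
          ((mon g (e0 m) * P m : ℤ) : ℝ)) := by
      push_cast; ring
    rw [hsum m, h6, abs_mul]
    calc |(d : ℝ)| * |∑ i, ξ (κ i) * ((mon g (e m i) * lam m i : ℤ) : ℝ) -
          ((mon g (e0 m) * P m : ℤ) : ℝ)|
        ≤ Real.exp (δ / 2 * (L m : ℝ)) *
          (((mon g (e0 m) : ℤ) : ℝ) * Real.exp (-(δ * (L m : ℝ)))) :=
          mul_le_mul h5 (h4 m) (abs_nonneg _) (Real.exp_pos _).le
      _ = ((mon g (e0 m) : ℤ) : ℝ) *
          (Real.exp (δ / 2 * (L m : ℝ)) * Real.exp (-(δ * (L m : ℝ)))) := by ring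
      _ = ((mon g (e0 m) : ℤ) : ℝ) * Real.exp (-(δ / 2 * (L m : ℝ))) := by
          rw [← Real.exp_add]; congr 2; ring

/-- **Arithmetic claim**: an irrational sum of at most `s` products of an `S`-unit `r i / q ≥ 1`,
a bounded integer and one of the numbers `ξ` is not very close to an integer. -/
theorem arithF {n : ℕ} (ξ : Fin n → ℝ) (hξ : ∀ k, IsAlgebraic ℚ (ξ k)) (S : Finset ℕ)
    (hS : ∀ p ∈ S, p.Prime) (s H : ℕ) (C δ : ℝ) (hC : 0 ≤ C) (hδ : 0 < δ) :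
    ∃ L0 : ℕ, ∀ L : ℕ, L0 ≤ L → ∀ (ι : Type) (T : Finset ι) (q : ℕ) (r : ι → ℕ) (lam : ι → ℤ)
      (κ : ι → Fin n),
      T.card ≤ s → Smooth S q → (q : ℝ) ≤ Real.exp (C * L) → (∀ i ∈ T, Smooth S (r i)) →
      (∀ i ∈ T, q ≤ r i) → (∀ i ∈ T, (r i : ℝ) ≤ Real.exp (C * L)) →
      (∀ i ∈ T, |lam i| ≤ H) → Irrational (∑ i ∈ T, ξ (κ i) * (((r i : ℤ) * lam i : ℤ) : ℝ)) →
      ∀ P : ℤ, (q : ℝ) * Real.exp (-(δ * L)) <
        |∑ i ∈ T, ξ (κ i) * (((r i : ℤ) * lam i : ℤ) : ℝ) - (q : ℝ) * P| := by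
  classical
  choose L0 hL0 using fun s => arithFin ξ hξ (gens S)
    (fun v => (hS _ (gens_mem S v)).pos) H C δ hC hδ s
  refine ⟨(Finset.range (s + 1)).sup (fun s => Finset.univ.sup (L0 s)), ?_⟩
  intro L hL ι T q r lam κ hT hq hqC hr hqr hrC hlam hne P
  let f : Fin T.card ≃ T := T.equivFin.symm
  have h1 : L0 T.card (fun i => κ (f i)) ≤ L := by
    refine le_trans ?_ hL
    refine le_trans (Finset.le_sup (f := L0 T.card) (Finset.mem_univ (fun i => κ (f i)))) ?_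
    exact Finset.le_sup (f := fun s => Finset.univ.sup (L0 s)) (Finset.mem_range.2 (by omega))
  have hsum : ∑ i : Fin T.card, ξ (κ (f i)) *
      ((mon (gens S) (expo S (r (f i))) * lam (f i) : ℤ) : ℝ) =
      ∑ i ∈ T, ξ (κ i) * (((r i : ℤ) * lam i : ℤ) : ℝ) := by
    have h2 : ∑ i : Fin T.card, ξ (κ (f i)) *
        ((mon (gens S) (expo S (r (f i))) * lam (f i) : ℤ) : ℝ) =
        ∑ i : Fin T.card, ξ (κ (f i)) * ((((r (f i) : ℕ) : ℤ) * lam (f i) : ℤ) : ℝ) :=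
      Finset.sum_congr rfl fun i _ => by rw [mon_expo (hr _ (f i).2)]
    rw [h2, ← Finset.sum_coe_sort T (fun i => ξ (κ i) * (((r i : ℤ) * lam i : ℤ) : ℝ))]
    exact Equiv.sum_comp f
      (fun i : T => ξ (κ (i : ι)) * ((((r (i : ι) : ℕ) : ℤ) * lam (i : ι) : ℤ) : ℝ))
  have h3 := hL0 T.card (fun i => κ (f i)) L h1 (expo S q) (fun i => expo S (r (f i)))
    (fun i => lam (f i)) P
    (by rw [mon_expo hq]; exact_mod_cast hqC)
    (fun i => by
      rw [mon_expo hq, mon_expo (hr _ (f i).2)]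
      exact_mod_cast hqr _ (f i).2)
    (fun i => by
      rw [mon_expo (hr _ (f i).2)]
      exact_mod_cast hrC _ (f i).2)
    (fun i => hlam _ (f i).2) (by rw [hsum]; exact hne)
  rw [hsum, mon_expo hq] at h3
  push_cast at h3 ⊢
  exact h3

end Pool.Agent.TH419.WI
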