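import Mathlib
import Pool.Agent.TH419.WI.ArithF
import Pool.Agent.TH551.SU.CS
import Pool.Agent.TH551.SU.Sui

set_option autoImplicit false

open Finset Filter Topology

namespace Pool.Agent.TH419.WI

open Pool.Agent.TH551.SU Pool.Agent.TH932.Germs

/-- the quotient of `r` and `r'` is a fraction with numerator and denominator at most `M` -/
def Near (M r r' : ℕ) : Prop :=
  ∃ u v : ℕ, 0 < u ∧ u ≤ M ∧ 0 < v ∧ v ≤ M ∧ u * r = v * r'

lemma Near.mono {M M' r r' : ℕ} (h : Near M r r') (hM : M ≤ M') : Near M' r r' := by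
  obtain ⟨u, v, h1, h2, h3, h4, h5⟩ := h
  exact ⟨u, v, h1, h2.trans hM, h3, h4.trans hM, h5⟩

lemma gm_sum {ι : Type} (A : Finset ι) (f : ι → ℕ → ℚ) :
    ∑ i ∈ A, gm (f i) = gm (fun n => ∑ i ∈ A, f i n) := by
  classical
  induction A using Finset.induction_on with
  | empty => simp [gm_zero]
  | insert a A ha ih =>
    rw [Finset.sum_insert ha, ih, gm_add]
    congr 1
    funext n
    rw [Finset.sum_insert ha]

lemma uu_const {s : ℕ} (i : ℕ → Fin s) : ∃ i0, ∀ᶠ n in (UU : Filter ℕ), i n = i0 := by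
  by_contra hcon
  push Not at hcon
  have h1 : ∀ᶠ n in (UU : Filter ℕ), ∀ i0, i n ≠ i0 := by
    rw [eventually_all]
    intro i0
    exact hcon i0
  obtain ⟨n, hn⟩ := h1.exists
  exact hn _ rfl

lemma gens_inj (S : Finset ℕ) : Function.Injective (gens S) := by
  intro a b hab
  exact S.equivFin.symm.injective (Subtype.ext hab)

lemma isSU {S : Finset ℕ} {r : ℕ} (hr : Smooth S r) : IsSU (gens S) (r : ℚ) := by
  refine ⟨1, fun v => (expo S r v : ℤ), Or.inl rfl, ?_⟩
  have h1 := mon_expo hr
  have h2 : ((mon (gens S) (expo S r) : ℤ) : ℚ) = (r : ℚ) := by rw [h1]; simp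
  rw [← h2]
  unfold mon
  push_cast
  rw [one_mul]
  apply Finset.prod_congr rfl
  intro v _
  rw [zpow_natCast]

lemma classesFin (S : Finset ℕ) (hS : ∀ p ∈ S, p.Prime) (H s : ℕ) :
    ∃ M : ℕ, ∀ (r : Fin s → ℕ) (lam : Fin s → ℤ) (w : Fin s → ℕ), (∀ i, Smooth S (r i)) →
      (∀ i, |lam i| ≤ H) → (∀ i j, Near M (r i) (r j) → w i = w j) →
      ∑ i, (r i : ℤ) * lam i = 0 →
      ∀ w0, ∑ i ∈ Finset.univ.filter (fun i => w i = w0), (r i : ℤ) * lam i = 0 := by
  classical
  by_contra hcon
  push Not at hcon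
  choose r lam w h1 h2 h3 h4 w0 h5 using hcon
  -- the scale
  set L : ℕ → ℝ := fun n => Real.log n with hLdef
  have hL : Tendsto L atTop atTop := Real.tendsto_log_atTop.comp tendsto_natCast_atTop_atTop
  have hpos : ∀ᶠ n in (UU : Filter ℕ), 1 ≤ n := ev_of_atTop (eventually_ge_atTop 1)
  -- the limit of the classes
  set W : Fin s → ℕ := fun i => sInf {j : ℕ | ∃ h : j < s, ∀ᶠ n in (UU : Filter ℕ),
    w n ⟨j, h⟩ = w n i} with hW
  have hWmem : ∀ i, ∃ h : W i < s, ∀ᶠ n in (UU : Filter ℕ), w n ⟨W i, h⟩ = w n i := by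
    intro i
    exact Nat.sInf_mem (s := {j : ℕ | ∃ h : j < s, ∀ᶠ n in (UU : Filter ℕ),
      w n ⟨j, h⟩ = w n i}) ⟨i, i.isLt, Eventually.of_forall fun n => rfl⟩
  have hWiff : ∀ i j, W i = W j ↔ ∀ᶠ n in (UU : Filter ℕ), w n i = w n j := by
    intro i j
    constructor
    · intro hij
      obtain ⟨hi, hi'⟩ := hWmem i
      obtain ⟨hj, hj'⟩ := hWmem j
      filter_upwards [hi', hj'] with n a1 a2
      rw [← a1, ← a2]
      congr 1
      exact Fin.ext hij
    · intro hij
      simp only [hW]
      congr 1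
      ext k
      simp only [Set.mem_ofPred_eq]
      constructor
      · rintro ⟨hk, hk'⟩
        refine ⟨hk, ?_⟩
        filter_upwards [hij, hk'] with n a1 a2
        rw [a2, a1]
      · rintro ⟨hk, hk'⟩
        refine ⟨hk, ?_⟩
        filter_upwards [hij, hk'] with n a1 a2
        rw [a2, a1]
  have hNeglH : ∀ i, Negl L (fun n => lam n i) := by
    intro i ε hε
    filter_upwards [ev_of_atTop (ev_const_le hL (H : ℝ) ε hε)] with n hn
    refine le_trans ?_ hn
    exact_mod_cast h2 n i
  have hNegl1 : Negl L (fun _ => (1 : ℤ)) := by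
    intro ε hε
    filter_upwards [ev_of_atTop (ev_const_le hL (1 : ℝ) ε hε)] with n hn
    simpa using hn
  let a : Fin s → KK L hL := fun i => ⟨gm (fun n => (lam n i : ℚ)),
    ⟨fun n => lam n i, fun _ => 1, hNeglH i, hNegl1, Eventually.of_forall fun n => one_ne_zero, by
      congr 1
      funext n
      simp⟩⟩
  have hr0 : ∀ n i, (r n i : ℚ) ≠ 0 := fun n i => by exact_mod_cast (h1 n i).1
  have hcs := CS.cs SUI.sui S.card (gens S) (fun v => hS _ (gens_mem S v)) (gens_inj S) L hL (Fin s)
    Finset.univ a (fun i => gm (fun n => (r n i : ℚ))) W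
    (fun i _ => ⟨_, rfl, fun n => isSU (h1 n i)⟩)
    (by
      intro i _ j _ hij
      rw [hWiff]
      rw [gm_div, mem_KK_iff] at hij
      obtain ⟨hn1, hn2⟩ := hij
      filter_upwards [hn1 1 one_pos, hn2 1 one_pos, hpos] with n a1 a2 a3
      have hn0 : (0 : ℝ) < n := by exact_mod_cast a3
      rw [one_mul, hLdef] at a1 a2
      simp only at a1 a2
      rw [Real.exp_log hn0] at a1 a2
      set q : ℚ := (r n i : ℚ) / (r n j : ℚ) with hq
      have hqpos : 0 < q := by
        rw [hq]
        have b1 : 0 < r n i := Nat.pos_of_ne_zero (h1 n i).1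
        have b2 : 0 < r n j := Nat.pos_of_ne_zero (h1 n j).1
        positivity
      have hqn : 0 < q.num := Rat.num_pos.2 hqpos
      apply h3 n i j
      refine ⟨q.den, q.num.natAbs, q.den_pos, ?_, ?_, ?_, ?_⟩
      · have : ((q.den : ℤ) : ℝ) ≤ n := (le_abs_self _).trans a2
        exact_mod_cast this
      · omega
      · have : ((q.num.natAbs : ℕ) : ℝ) = |(q.num : ℝ)| := by
          rw [Nat.cast_natAbs, Int.cast_abs]
        have b1 : ((q.num.natAbs : ℕ) : ℝ) ≤ n := by rw [this]; exact a1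
        exact_mod_cast b1
      · have b1 : (r n i : ℚ) * q.den = q.num * r n j := by
          have b2 := Rat.mul_den_eq_num q
          have b3 : (r n i : ℚ) = q * r n j := by
            rw [hq, div_mul_cancel₀ _ (hr0 n j)]
          rw [b3, ← b2]; ring
        have b4 : ((q.den * r n i : ℕ) : ℚ) = ((q.num.natAbs * r n j : ℕ) : ℚ) := by
          push_cast
          have b5 : ((q.num.natAbs : ℕ) : ℚ) = (q.num : ℚ) := by
            have b6 : ((q.num.natAbs : ℕ) : ℤ) = q.num := Int.natAbs_of_nonneg hqn.le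
            rw [← Int.cast_natCast (R := ℚ) q.num.natAbs, b6]
          rw [b5, ← b1]; ring
        exact_mod_cast b4)
    (by
      simp only [a]
      have b1 : ∀ i, gm (fun n => (lam n i : ℚ)) * gm (fun n => (r n i : ℚ)) =
        gm (fun n => (lam n i : ℚ) * (r n i : ℚ)) := fun i => gm_mul _ _
      simp only [b1]
      rw [gm_sum, ← gm_zero]
      congr 1
      funext n
      have b2 := h4 n
      have b3 : (((∑ i, (r n i : ℤ) * lam n i : ℤ)) : ℚ) = 0 := by rw [b2]; simp
      push_cast at b3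
      rw [← b3]
      apply Finset.sum_congr rfl
      intro i _
      ring)
  -- an index of the bad class
  have hex : ∀ n, ∃ i, w n i = w0 n := by
    intro n
    by_contra hno
    push Not at hno
    apply h5 n
    rw [Finset.filter_false_of_mem (fun i _ => hno i), Finset.sum_empty]
  choose ix hix using hex
  obtain ⟨i0, hi0⟩ := uu_const ix
  have hall : ∀ᶠ n in (UU : Filter ℕ), ∀ j, (w n j = w n i0 ↔ W j = W i0) := by
    rw [eventually_all]
    intro j
    by_cases hj : W j = W i0
    · filter_upwards [(hWiff j i0).1 hj] with n hn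
      exact ⟨fun _ => hj, fun _ => hn⟩
    · have h6 : ¬ ∀ᶠ n in (UU : Filter ℕ), w n j = w n i0 := fun h => hj ((hWiff j i0).2 h)
      filter_upwards [Ultrafilter.eventually_not.2 h6] with n hn
      exact ⟨fun h => absurd h hn, fun h => absurd h hj⟩
  have hcoef := congrArg (fun p => Polynomial.coeff p (W i0)) hcs
  simp only [Polynomial.finsetSum_coeff, Polynomial.coeff_C_mul_X_pow, Polynomial.coeff_zero] at hcoef
  have hz : gm (fun n => ∑ i ∈ Finset.univ.filter (fun i => W i = W i0),
      (r n i : ℚ) * (lam n i : ℚ)) = 0 := by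
    rw [← hcoef, ← gm_sum, Finset.sum_filter]
    apply Finset.sum_congr rfl
    intro i _
    by_cases hi : W i = W i0
    · rw [if_pos hi, if_pos hi.symm]
      simp only [a]
      rw [gm_mul]
      congr 1
      funext n
      ring
    · rw [if_neg hi, if_neg (fun h => hi h.symm)]
  rw [← gm_zero, gm_eq] at hz
  obtain ⟨n, hn1, hn2, hn3⟩ := (hz.and (hall.and hi0)).exists
  apply h5 n
  have h7 : Finset.univ.filter (fun i => w n i = w0 n) =
      Finset.univ.filter (fun i => W i = W i0) := by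
    ext j
    simp only [Finset.mem_filter, Finset.mem_univ, true_and]
    rw [← hn2 j, ← hix n, hn3]
  rw [h7]
  exact_mod_cast hn1

/-- **Uniform unit equation**: a vanishing sum of at most `s` smooth numbers with bounded integer
coefficients splits into vanishing sums over the classes of any partition that does not separate
numbers with a quotient of small height. -/
theorem classes (S : Finset ℕ) (hS : ∀ p ∈ S, p.Prime) (s H : ℕ) :
    ∃ M : ℕ, ∀ (ι : Type) (T : Finset ι) (r : ι → ℕ) (lam : ι → ℤ) (w : ι → ℕ), T.card ≤ s →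
      (∀ i ∈ T, Smooth S (r i)) → (∀ i ∈ T, |lam i| ≤ H) →
      (∀ i ∈ T, ∀ j ∈ T, Near M (r i) (r j) → w i = w j) →
      ∑ i ∈ T, (r i : ℤ) * lam i = 0 →
      ∀ w0, ∑ i ∈ T.filter (fun i => w i = w0), (r i : ℤ) * lam i = 0 := by
  classical
  choose M hM using classesFin S hS H
  refine ⟨(Finset.range (s + 1)).sup M, ?_⟩
  intro ι T r lam w hT h1 h2 h3 h4 w0
  have hMle : M T.card ≤ (Finset.range (s + 1)).sup M :=
    Finset.le_sup (f := M) (Finset.mem_range.2 (by omega))
  let f : Fin T.card ≃ T := T.equivFin.symm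
  have hsum : ∀ F : ι → ℤ, ∑ i : Fin T.card, F (f i) = ∑ i ∈ T, F i := by
    intro F
    rw [← Finset.sum_coe_sort T F]
    exact Equiv.sum_comp f (fun i : T => F (i : ι))
  have h5 := hM T.card (fun i => r (f i)) (fun i => lam (f i)) (fun i => w (f i))
    (fun i => h1 _ (f i).2) (fun i => h2 _ (f i).2)
    (fun i j h => h3 _ (f i).2 _ (f j).2 (h.mono hMle))
    (by rw [← h4]; exact hsum (fun i => (r i : ℤ) * lam i)) w0
  rw [Finset.sum_filter] at h5
  have h6 := hsum (fun i => if w i = w0 then (r i : ℤ) * lam i else 0)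
  rw [Finset.sum_filter, ← h6]
  exact h5

end Pool.Agent.TH419.WI
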