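import Mathlib
import Pool.Agent.TH419.WI.ElimR

set_option autoImplicit false

open Finset Polynomial

namespace Pool.Agent.TH419.WI

open Pool.Agent.H648R2.S

/-- **Core theorem for several rows**, with a bound `dg` for the degrees in each row.  If the numbers `∑ θ_j b^L Q_j(b)`, `L = m / 2`, are not too
close to integers, then no short family of integer polynomials in the shift kills a long window of
the expansions of the numbers `θ_j`. -/
theorem coreD (b : ℕ) (hb : 2 ≤ b) (R B D H : ℕ) :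
    ∃ D' M : ℕ, ∀ (ι : Type) (T : Finset ι) (θ : ι → ℝ) (c : ι → ℕ → ℤ) (x : ι → ℕ → ℝ),
      T.card ≤ R → (∀ j ∈ T, ∀ n, |c j n| ≤ B) → (∀ j ∈ T, ∀ n, |x j n| ≤ B) →
      (∀ j ∈ T, ∀ n, (b : ℝ) * x j n = c j (n + 1) + x j (n + 1)) →
      (∀ j ∈ T, ∀ n, ∃ k : ℤ, θ j * (b : ℝ) ^ n - x j n = k) →
      ∀ m : ℕ, M ≤ m → ∀ dg : ι → ℕ,
      (∀ Q : ι → ℤ[X], (∀ j ∈ T, (Q j).support.card ≤ D') →
        (∀ j ∈ T, ∀ i, |(Q j).coeff i| ≤ H) → (∀ j ∈ T, (Q j).natDegree ≤ dg j) →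
        (∃ j ∈ T, (Q j).eval (b : ℤ) ≠ 0) → ∀ P : ℤ,
        Real.exp (-(1 / 4 * ((m / 2 : ℕ) * Real.log b))) <
          |∑ j ∈ T, θ j * ((b : ℝ) ^ (m / 2) * (((Q j).eval (b : ℤ) : ℤ) : ℝ)) - P|) →
      ∀ P : ι → ℤ[X], (∃ j ∈ T, P j ≠ 0) → (∀ j ∈ T, (P j).support.card ≤ D) →
      (∀ j ∈ T, ∀ i, |(P j).coeff i| ≤ H) → (∀ j ∈ T, (P j).natDegree ≤ dg j) →
      ∃ n, 1 ≤ n ∧ n ≤ m ∧ ∑ j ∈ T, act (P j) (c j) n ≠ 0 := by
  have hbR : (2 : ℝ) ≤ b := by exact_mod_cast hb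
  have hb0 : (0 : ℝ) < b := by linarith
  have hlogb : 0 < Real.log b := Real.log_pos (by linarith)
  obtain ⟨D', K, helim⟩ := elimR' hb R H B D
  set G : ℕ := R * (D' * H * B) with hG
  refine ⟨D', 2 * (2 * (K + G) + 2), ?_⟩
  intro ι T θ c x hT hc hx hrec hint m hm dg hAC P hP0 hPD hPH hPdeg
  by_contra hcon
  push Not at hcon
  obtain ⟨Q, hQD, hQH, hQdeg, hev, hQ⟩ := helim ι T c hT hc m P hP0 hPD hPH
    (fun n h1 h2 => hcon n h1 h2)
  set L : ℕ := m / 2 with hL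
  have hLm : 2 * L ≤ m := by omega
  have hLm' : m ≤ 2 * L + 1 := by omega
  have hLL0 : 2 * (K + G) + 1 ≤ L := by omega
  have hL1 : 1 ≤ L := by omega
  -- the real tail
  set y : ℕ → ℝ := fun n => ∑ j ∈ T, act (Q j) (x j) n with hy
  have hrec' : ∀ n, (b : ℝ) * y n = ((∑ j ∈ T, act (Q j) (c j) (n + 1) : ℤ) : ℝ) + y (n + 1) := by
    intro n
    have h0 : ∀ j ∈ T, (b : ℝ) * act (Q j) (x j) n =
        ((act (Q j) (c j) (n + 1) : ℤ) : ℝ) + act (Q j) (x j) (n + 1) := by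
      intro j hj
      have h1 : (b : ℤ) • x j = (fun k => ((c j (k + 1) : ℤ) : ℝ)) + fun k => x j (k + 1) := by
        funext k
        simp only [Pi.smul_apply, Pi.add_apply, zsmul_eq_mul]
        push_cast
        exact hrec j hj k
      have h2 := congrFun (congrArg (act (Q j)) h1) n
      rw [act_zsmul, act_add, Pi.smul_apply, Pi.add_apply, zsmul_eq_mul,
        act_E (Q j) (fun k => ((c j k : ℤ) : ℝ)) n, act_E, act_cast] at h2
      push_cast at h2
      exact h2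
    simp only [hy]
    rw [Finset.mul_sum, Finset.sum_congr rfl h0, Finset.sum_add_distrib]
    push_cast
    rfl
  have hup : ∀ j, L + j ≤ m - K → (b : ℝ) ^ j * y L = y (L + j) := by
    intro j
    induction j with
    | zero => intro _; simp
    | succ j ih =>
      intro hj
      have h1 := ih (by omega)
      have h2 := hrec' (L + j)
      rw [hQ (L + j + 1) (by omega) (by omega)] at h2
      rw [pow_succ', mul_assoc, h1, h2]
      simp [add_assoc]
  have hb1 : |y L| * (b : ℝ) ^ (m - K - L) ≤ G := by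
    have h1 := hup (m - K - L) (by omega)
    have h2 : |y (L + (m - K - L))| ≤ G := by
      simp only [hy]
      refine (Finset.abs_sum_le_sum_abs _ _).trans ?_
      have h4 : ∀ j ∈ T, |act (Q j) (x j) (L + (m - K - L))| ≤ ((D' * H * B : ℕ) : ℝ) :=
        fun j hj => abs_act_le (Q j) (x j) D' H B (hQD j hj) (hQH j hj) (hx j hj) _
      refine (Finset.sum_le_card_nsmul _ _ _ h4).trans ?_
      rw [nsmul_eq_mul, hG, Nat.cast_mul R]
      have h5 : (T.card : ℝ) ≤ R := by exact_mod_cast hT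
      exact mul_le_mul_of_nonneg_right h5 (by positivity)
    rw [← h1, abs_mul, abs_of_pos (by positivity : (0 : ℝ) < (b : ℝ) ^ (m - K - L))] at h2
    rw [mul_comm]
    exact h2
  -- the integer
  have hint' : ∀ j, ∃ kk : ℕ → ℤ, j ∈ T → ∀ n, θ j * (b : ℝ) ^ n - x j n = kk n := by
    intro j
    by_cases hj : j ∈ T
    · choose kk hkk using hint j hj
      exact ⟨kk, fun _ => hkk⟩
    · exact ⟨fun _ => 0, fun h => absurd h hj⟩
  choose kk hkk using hint'
  have hintQ : ∑ j ∈ T, θ j * ((b : ℝ) ^ L * (((Q j).eval (b : ℤ) : ℤ) : ℝ)) - y L =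
      ((∑ j ∈ T, act (Q j) (kk j) L : ℤ) : ℝ) := by
    simp only [hy]
    rw [← Finset.sum_sub_distrib]
    push_cast
    apply Finset.sum_congr rfl
    intro j hj
    have h1 : (fun n => θ j * (b : ℝ) ^ n) = x j + fun n => ((kk j n : ℤ) : ℝ) := by
      funext n
      simp only [Pi.add_apply]
      rw [← hkk j hj n]; ring
    have h2 := congrFun (congrArg (act (Q j)) h1) L
    rw [act_add, Pi.add_apply, act_cast] at h2
    have h2' : act (Q j) (fun n => θ j * (b : ℝ) ^ n) L =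
        θ j * ((b : ℝ) ^ L * (((Q j).eval (b : ℤ) : ℤ) : ℝ)) := by
      rw [act_eq, eval_eq_sum, Polynomial.sum_def]
      push_cast
      rw [Finset.mul_sum, Finset.mul_sum]
      apply Finset.sum_congr rfl
      intro i _
      rw [zsmul_eq_mul, pow_add]; ring
    rw [h2'] at h2
    linarith
  have h3 := hAC Q hQD hQH (fun j hj => (hQdeg j hj).trans (hPdeg j hj)) hev
    (∑ j ∈ T, act (Q j) (kk j) L)
  rw [← hintQ] at h3
  have h4 : ∑ j ∈ T, θ j * ((b : ℝ) ^ L * (((Q j).eval (b : ℤ) : ℤ) : ℝ)) -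
      (∑ j ∈ T, θ j * ((b : ℝ) ^ L * (((Q j).eval (b : ℤ) : ℤ) : ℝ)) - y L) = y L := by ring
  rw [h4] at h3
  have hpow : (b : ℝ) ^ (m - K - L) = Real.exp (((m - K - L : ℕ) : ℝ) * Real.log b) := by
    rw [← Real.rpow_natCast, Real.rpow_def_of_pos hb0, mul_comm]
  have hGexp : (G : ℝ) ≤ Real.exp (G * Real.log b) := by
    have h5 : Real.exp (G * Real.log b) = (b : ℝ) ^ G := by
      rw [← Real.rpow_natCast, Real.rpow_def_of_pos hb0, mul_comm]
    rw [h5]
    have : G < b ^ G := Nat.lt_pow_self (by omega)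
    exact_mod_cast this.le
  have h6 : Real.exp (-(1 / 4 * ((L : ℕ) * Real.log b))) * (b : ℝ) ^ (m - K - L) < G :=
    lt_of_lt_of_le (mul_lt_mul_of_pos_right h3 (by positivity)) hb1
  rw [hpow, ← Real.exp_add] at h6
  have h7 := lt_of_lt_of_le h6 hGexp
  rw [Real.exp_lt_exp] at h7
  have h8 : ((m - K - L : ℕ) : ℝ) ≥ L - K := by
    have h9 : L ≤ (m - K - L) + K := by omega
    have h10 : (L : ℝ) ≤ ((m - K - L : ℕ) : ℝ) + K := by exact_mod_cast h9
    linarith
  have h10 : (2 * (K + G) : ℝ) + 1 ≤ L := by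
    have : 2 * (K + G) + 1 ≤ L := by omega
    exact_mod_cast this
  have h11 : 0 < (((m - K - L : ℕ) : ℝ) - 1 / 4 * L - G) := by
    linarith
  have h12 := mul_pos h11 hlogb
  nlinarith

end Pool.Agent.TH419.WI
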