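import Mathlib
import Pool.Agent.H648R2.S.Digits
import Pool.Agent.H352.Win.General
import Pool.Agent.TH419.WI.CoreD

set_option autoImplicit false

open Finset Polynomial

namespace Pool.Agent.TH419.WI

open Pool.Agent.H648R2.S
open Pool.Agent.H352.Win (exists_gap coeff_sp_mul_bound real_indep)

/-- **General window theorem for several rows**, given the arithmetic input, with a bound `dg` for
the degrees in each row. -/
theorem generalD (b : ℕ) (hb : 2 ≤ b) (B D E K : ℕ) (ε : ℝ) (hε : 0 < ε) :
    ∃ D' H' R M : ℕ, 0 < R ∧ ∀ (ι : Type) [DecidableEq ι] (θ : ι → ℝ) (c : ι → ℕ → ℤ)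
      (x : ι → ℕ → ℝ) (w : Fin D → ι), (∀ j n, |c (w j) n| ≤ B) → (∀ j n, |x (w j) n| ≤ B) →
      (∀ j n, (b : ℝ) * x (w j) n = c (w j) (n + 1) + x (w j) (n + 1)) →
      (∀ j n, ∃ k : ℤ, θ (w j) * (b : ℝ) ^ n - x (w j) n = k) →
      ∀ m : ℕ, M ≤ m → ∀ dg : ι → ℕ,
      (∀ Q : ι → ℤ[X], (∀ j ∈ Finset.univ.image w, (Q j).support.card ≤ D') →
        (∀ j ∈ Finset.univ.image w, ∀ i, |(Q j).coeff i| ≤ H') →
        (∀ j ∈ Finset.univ.image w, (Q j).natDegree ≤ dg j) →
        (∃ j ∈ Finset.univ.image w, (Q j).eval (b : ℤ) ≠ 0) → ∀ P : ℤ,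
        Real.exp (-(1 / 4 * ((m / R / 2 : ℕ) * Real.log b))) <
          |∑ j ∈ Finset.univ.image w,
            θ j * ((b : ℝ) ^ (m / R / 2) * (((Q j).eval (b : ℤ) : ℤ) : ℝ)) - P|) →
      ∀ t : Fin D → ℕ, Function.Injective (fun j => (w j, t j)) → (∀ j, t j + (m - m / R) ≤ dg (w j)) →
      ∀ lam : Fin D → ℝ, lam ≠ 0 → ∀ p : Fin E → ℕ, (∀ l, 0 < p l) →
      ((∑ l, p l : ℕ) : ℝ) ≤ (1 - ε) * m / (K + 1) →
      ∀ f : Fin E → ℕ → ℝ, (∀ l n, f l (n + p l) = f l n) →
      K < ((Finset.range m).filter
        (fun i => ∑ j, lam j * (c (w j) (t j + i + 1) : ℝ) ≠ ∑ l, f l i)).card := by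
  classical
  obtain ⟨N, hN⟩ := exists_nat_gt (1 / ε)
  have hN0 : 0 < N := by
    rcases Nat.eq_zero_or_pos N with h | h
    · rw [h, Nat.cast_zero] at hN
      have : 0 < 1 / ε := by positivity
      linarith
    · exact h
  set R : ℕ := 2 * N * (K + 1) with hR
  have hR0 : 0 < R := by rw [hR]; positivity
  obtain ⟨H, hH⟩ := uniform_rel D (2 ^ E * (2 ^ E * B))
  obtain ⟨D', M, hM⟩ := coreD b hb D B (D * 2 ^ E) (D * (H * 2 ^ E))
  refine ⟨D', D * (H * 2 ^ E), R, R * (M + 1), hR0, ?_⟩
  intro ι hιdec θ c x w hc hx hrec hint m hm dg hAC t ht htC lam hlam p hp hsum f hf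
  have hdec : hιdec = Classical.decEq ι := Subsingleton.elim _ _
  subst hdec
  by_contra hcon
  push Not at hcon
  obtain ⟨h1, h2, h3, h4⟩ := perPoly_props E p hp
  set wd : ℕ := m / (K + 1) with hw
  set m' : ℕ := m / R with hm'
  have hm'1 : m' * R ≤ m := Nat.div_mul_le_self _ _
  have hm'2 : m < (m' + 1) * R := by
    have := Nat.lt_div_mul_add (a := m) hR0
    rw [hm', Nat.add_mul, one_mul]; omega
  have hm'M : M + 1 ≤ m' := by
    rw [hm', Nat.le_div_iff_mul_le hR0]
    rw [mul_comm]; exact hm
  have hεN : 1 < ε * N := by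
    rw [div_lt_iff₀ hε] at hN; linarith
  have hw1 : wd * (K + 1) ≤ m := Nat.div_mul_le_self _ _
  have hw2 : m < (wd + 1) * (K + 1) := by
    have := Nat.lt_div_mul_add (a := m) (Nat.succ_pos K)
    rw [hw, Nat.add_mul, one_mul]; exact this
  -- the short window fits
  have hfit : (∑ l, p l) + m' ≤ wd := by
    have hK0 : (0 : ℝ) < (K : ℝ) + 1 := by positivity
    have a1 : (m : ℝ) < (wd + 1) * (K + 1) := by exact_mod_cast hw2
    have a2 : (m' : ℝ) * (2 * N * (K + 1)) ≤ m := by
      have : ((m' * R : ℕ) : ℝ) ≤ m := by exact_mod_cast hm'1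
      rw [hR] at this
      push_cast at this
      linarith
    have a3 : ((∑ l, p l : ℕ) : ℝ) * (K + 1) ≤ (1 - ε) * m := by
      rw [le_div_iff₀ hK0] at hsum
      exact hsum
    have a4 : (1 : ℝ) ≤ m' := by
      have : 1 ≤ m' := by omega
      exact_mod_cast this
    have a5 : (0 : ℝ) ≤ m := Nat.cast_nonneg _
    -- `m' (K+1) + (K+1) ≤ 2 m' (K+1) ≤ ε m`
    have a6 : (m' : ℝ) * (K + 1) * 2 ≤ ε * m := by
      have b1 : ε * ((m' : ℝ) * (2 * N * (K + 1))) ≤ ε * m :=
        mul_le_mul_of_nonneg_left a2 hε.le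
      have b2 : (m' : ℝ) * (K + 1) * 2 * 1 ≤ (m' : ℝ) * (K + 1) * 2 * (ε * N) := by
        apply mul_le_mul_of_nonneg_left hεN.le
        positivity
      calc (m' : ℝ) * (K + 1) * 2 = (m' : ℝ) * (K + 1) * 2 * 1 := by ring
        _ ≤ (m' : ℝ) * (K + 1) * 2 * (ε * N) := b2
        _ = ε * ((m' : ℝ) * (2 * N * (K + 1))) := by ring
        _ ≤ ε * m := b1
    have a7 : ((((∑ l, p l) + m' : ℕ) : ℝ)) * (K + 1) <
        (wd + 1) * (K + 1) - (K + 1) + (K + 1) := by
      push_cast
      push_cast at a3
      nlinarith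
    have a8 : ((((∑ l, p l) + m' : ℕ) : ℝ)) < wd + 1 := by
      have : ((((∑ l, p l) + m' : ℕ) : ℝ)) * (K + 1) < ((wd : ℝ) + 1) * (K + 1) := by linarith
      exact lt_of_mul_lt_mul_right this hK0.le
    have a9 : (∑ l, p l) + m' < wd + 1 := by exact_mod_cast a8
    omega
  -- a block without exceptions
  obtain ⟨u, hu1, hu2⟩ := exists_gap m K wd hw1 _ hcon
  have hagree : ∀ i, u ≤ i → i < u + wd →
      ∑ j, lam j * (c (w j) (t j + i + 1) : ℝ) = ∑ l, f l i := by
    intro i hi1 hi2
    have h5 := hu2 i hi1 hi2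
    rw [Finset.mem_filter, not_and, not_not] at h5
    exact h5 (Finset.mem_range.2 (by omega))
  -- the integer vectors
  set v : Fin D → Fin m' → ℤ := fun j i => act (perPoly p) (c (w j)) (t j + (u + i.val) + 1)
    with hv
  have hvrel : ∀ i, ∑ j, lam j * (v j i : ℝ) = 0 := by
    intro i
    have hi := i.isLt
    have e1 : ∀ j, (v j i : ℝ) =
        act (perPoly p) (fun k => (c (w j) (t j + k + 1) : ℝ)) (u + i.val) := by
      intro j
      rw [hv]
      simp only
      rw [← act_cast, act_eq, act_eq]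
      apply Finset.sum_congr rfl
      intro k _
      have : t j + (u + i.val) + 1 + k = t j + (u + i.val + k) + 1 := by omega
      rw [this]
    have e2 : ∑ j, lam j * (v j i : ℝ) =
        act (perPoly p) (fun k => ∑ j, lam j * (c (w j) (t j + k + 1) : ℝ)) (u + i.val) := by
      rw [act_eq]
      simp_rw [e1, act_eq]
      simp_rw [Finset.mul_sum]
      rw [Finset.sum_comm]
      apply Finset.sum_congr rfl
      intro k _
      rw [Finset.smul_sum]
      apply Finset.sum_congr rfl
      intro j _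
      rw [zsmul_eq_mul, zsmul_eq_mul]; ring
    rw [e2, act_congr (perPoly p) _ (∑ l, f l) (u + i.val), act_perPoly p f hf]
    · rfl
    · intro k hk
      rw [Finset.sum_apply]
      exact hagree _ (by omega) (by
        have := hk.trans h4
        omega)
  have hvB : ∀ j i, |v j i| ≤ ((2 ^ E * (2 ^ E * B) : ℕ) : ℤ) := by
    intro j i
    exact Pool.Agent.H352.Win.abs_act_le (perPoly p) (c (w j)) (2 ^ E) (2 ^ E) B h2 h3 (hc j) _
  have hindep : LinearIndependent ℚ (fun (j : Fin D) (i : Fin m') => (v j i : ℚ)) := by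
    by_contra hdep
    rw [← LinearIndependent.iff_fractionRing (R := ℤ), Fintype.not_linearIndependent_iff] at hdep
    obtain ⟨g, hg, j0, hj0⟩ := hdep
    obtain ⟨g', hg'0, hg'H, hg'⟩ := hH m' v hvB
      ⟨g, fun h => hj0 (by rw [h]; rfl), by
        intro i
        have h1 := congrFun hg i
        rw [Finset.sum_apply] at h1
        have h2 : ∑ j, (g j : ℚ) * (v j i : ℚ) = 0 := by
          rw [← h1.trans (Pi.zero_apply i)]
          apply Finset.sum_congr rfl
          intro j _
          rw [Pi.smul_apply, zsmul_eq_mul]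
        exact_mod_cast h2⟩
    -- the polynomials of the rows
    set gr : ι → Fin D → ℤ := fun r k => if w k = r then g' k else 0 with hgr
    have hgrH : ∀ r k, |gr r k| ≤ H := by
      intro r k
      simp only [hgr]
      split_ifs
      · exact hg'H k
      · simp
    obtain ⟨k0, hk0⟩ : ∃ k, g' k ≠ 0 := by
      by_contra hno
      push Not at hno
      exact hg'0 (funext hno)
    have hsp0 : sp (fun j => t j + u) (gr (w k0)) ≠ 0 := by
      intro h0
      apply hk0
      have h5 : (sp (fun j => t j + u) (gr (w k0))).coeff (t k0 + u) = g' k0 := by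
        rw [sp_coeff, Finset.sum_eq_single k0]
        · simp [hgr]
        · intro k _ hk
          by_cases hwk : w k = w k0
          · have htk : t k ≠ t k0 := fun h => hk (ht (by simp [hwk, h]))
            rw [if_neg (by omega)]
          · simp [hgr, hwk]
        · intro h; exact absurd (Finset.mem_univ _) h
      rw [← h5, h0]; simp
    have hmemT : ∀ j, j ∈ Finset.univ.image w → ∃ k, w k = j := by
      intro j hj
      obtain ⟨k, _, hk⟩ := Finset.mem_image.1 hj
      exact ⟨k, hk⟩
    obtain ⟨n, hn1, hn2, hn3⟩ := hM ι (Finset.univ.image w) θ c x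
      (Finset.card_image_le.trans (by simp))
      (fun j hj => by obtain ⟨k, rfl⟩ := hmemT j hj; exact hc k)
      (fun j hj => by obtain ⟨k, rfl⟩ := hmemT j hj; exact hx k)
      (fun j hj => by obtain ⟨k, rfl⟩ := hmemT j hj; exact hrec k)
      (fun j hj => by obtain ⟨k, rfl⟩ := hmemT j hj; exact hint k)
      m' (by omega) dg hAC
      (fun r => sp (fun j => t j + u) (gr r) * perPoly p)
      ⟨w k0, Finset.mem_image_of_mem w (Finset.mem_univ k0), mul_ne_zero hsp0 h1⟩
      (fun r _ => (support_mul_card _ _).trans (Nat.mul_le_mul (sp_supp_card _ _) h2))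
      (by
        intro r _ i
        have := coeff_sp_mul_bound (fun j => t j + u) (gr r) (perPoly p) H (2 ^ E) (hgrH r)
          (by exact_mod_cast h3) i
        exact_mod_cast this)
      (by
        intro r hr
        obtain ⟨kr, rfl⟩ := hmemT r hr
        refine natDegree_mul_le.trans ?_
        have h6 : (perPoly p).natDegree ≤ ∑ l, p l := h4
        by_cases hz : sp (fun j => t j + u) (gr (w kr)) = 0
        · rw [hz, natDegree_zero]
          have h9 := htC kr
          omega
        have h5 : ∃ k, w k = w kr ∧ (sp (fun j => t j + u) (gr (w kr))).natDegree = t k + u := by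
          have h7 : (sp (fun j => t j + u) (gr (w kr))).natDegree ∈
              (sp (fun j => t j + u) (gr (w kr))).support :=
            natDegree_mem_support_of_nonzero hz
          rw [mem_support_iff, sp_coeff] at h7
          obtain ⟨k, _, hk⟩ := Finset.exists_ne_zero_of_sum_ne_zero h7
          refine ⟨k, ?_, ?_⟩
          · by_contra hne
            apply hk
            simp [hgr, hne]
          · by_contra hne
            apply hk
            rw [if_neg (fun h => hne h)]
        obtain ⟨k, hk1, hk2⟩ := h5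
        have h9 := htC k
        rw [hk1] at h9
        rw [hk2]
        omega)
    apply hn3
    have h8 : ∀ r ∈ Finset.univ.image w,
        act (sp (fun j => t j + u) (gr r) * perPoly p) (c r) n =
        ∑ k, gr r k * act (perPoly p) (c r) (n + (t k + u)) := by
      intro r _
      rw [act_mul, sp_act]
    rw [Finset.sum_congr rfl h8, Finset.sum_comm]
    have h5 := hg' ⟨n - 1, by omega⟩
    rw [← h5]
    apply Finset.sum_congr rfl
    intro k _
    rw [Finset.sum_eq_single (w k)]
    · simp only [hgr, if_pos, hv]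
      congr 2
      omega
    · intro r _ hr
      simp only [hgr]
      rw [if_neg (fun h => hr h.symm), zero_mul]
    · intro h
      exact absurd (Finset.mem_image_of_mem w (Finset.mem_univ k)) h
  exact hlam (real_indep v hindep lam hvrel)

end Pool.Agent.TH419.WI
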