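import Mathlib
import Pool.Agent.TH419.WI.GeneralD
import Pool.Agent.TH419.WI.Classes
import Pool.Agent.TH932.S2.Pw

set_option autoImplicit false

open Finset Polynomial

namespace Pool.Agent.TH419.WI

open Pool.Agent.H648R2.S

/-- `p ^ N`, shifted into the interval `[1, q)` -/
noncomputable def row (p q N : ℕ) : ℝ := (p : ℝ) ^ N / (q : ℝ) ^ (Nat.log q (p ^ N))

lemma near_pow {p q : ℕ} (hp : 2 ≤ p) (hpq : p.Coprime q) {u v N N' s s' M M1 : ℕ}
    (hu : u ≤ M1) (hu0 : 0 < u) (hM : M1 ≤ M) (h : u * (p ^ N * q ^ s) = v * (p ^ N' * q ^ s'))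
    (hN : N + M ≤ N') : False := by
  obtain ⟨d, hd⟩ := Nat.exists_eq_add_of_le hN
  have h1 : p ^ N * (u * q ^ s) = p ^ N * (p ^ (M + d) * (v * q ^ s')) := by
    calc p ^ N * (u * q ^ s) = u * (p ^ N * q ^ s) := by ring
      _ = v * (p ^ N' * q ^ s') := h
      _ = p ^ N * (p ^ (M + d) * (v * q ^ s')) := by rw [hd]; ring
  have h2 := Nat.eq_of_mul_eq_mul_left (pow_pos (by omega) N) h1
  have h3 : p ^ (M + d) ∣ u * q ^ s := ⟨_, h2⟩
  have h4 : p ^ (M + d) ∣ u :=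
    (Nat.Coprime.pow (M + d) s hpq).dvd_of_dvd_mul_right h3
  have h5 := Nat.le_of_dvd hu0 h4
  have h6 : M < 2 ^ M := Nat.lt_pow_self (by omega)
  have h7 : 2 ^ M ≤ p ^ (M + d) :=
    (Nat.pow_le_pow_left hp M).trans (Nat.pow_le_pow_right (by omega) (by omega))
  omega

lemma log_le_mul {p q : ℕ} (hp : 2 ≤ p) (hq : 2 ≤ q) (N : ℕ) : Nat.log q (p ^ N) ≤ p * N := by
  have h1 : q ^ Nat.log q (p ^ N) ≤ p ^ N := Nat.pow_log_le_self q (pow_pos (by omega) N).ne'
  have h2 : 2 ^ Nat.log q (p ^ N) ≤ 2 ^ (p * N) := by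
    calc 2 ^ Nat.log q (p ^ N) ≤ q ^ Nat.log q (p ^ N) := Nat.pow_le_pow_left hq _
      _ ≤ p ^ N := h1
      _ ≤ (2 ^ p) ^ N := Nat.pow_le_pow_left (Nat.lt_pow_self (by omega)).le _
      _ = 2 ^ (p * N) := by rw [← pow_mul]
  exact (Nat.pow_le_pow_iff_right (by omega)).1 h2

/-- the arithmetic input for powers of `p` in base `q` -/
theorem inputP (p q : ℕ) (hp : 2 ≤ p) (hq : 2 ≤ q) (hpq : p.Coprime q) (D D' H' C R : ℕ)
    (hR : 0 < R) :
    ∃ M : ℕ, ∀ m : ℕ, M ≤ m → ∀ T : Finset ℕ, T.card ≤ D → (∀ N ∈ T, N ≤ C * m) →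
      (∀ N ∈ T, ∀ N' ∈ T, N ≠ N' → N + M ≤ N' ∨ N' + M ≤ N) →
      (∀ N ∈ T, m / R ≤ Nat.log q (p ^ N)) →
      ∀ Q : ℕ → ℤ[X], (∀ N ∈ T, (Q N).support.card ≤ D') →
        (∀ N ∈ T, ∀ i, |(Q N).coeff i| ≤ H') →
        (∀ N ∈ T, (Q N).natDegree ≤ Nat.log q (p ^ N) - m / R) →
        (∃ N ∈ T, (Q N).eval (q : ℤ) ≠ 0) → ∀ P : ℤ,
        Real.exp (-(1 / 4 * ((m / R / 2 : ℕ) * Real.log q))) <
          |∑ N ∈ T, row p q N *
            ((q : ℝ) ^ (m / R / 2) * (((Q N).eval (q : ℤ) : ℤ) : ℝ)) - P| := by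
  classical
  have hqR : (2 : ℝ) ≤ q := by exact_mod_cast hq
  have hq0 : (0 : ℝ) < q := by linarith
  have hlogq : 0 < Real.log q := Real.log_pos (by linarith)
  have hqZ : (q : ℤ) ≠ 0 := by omega
  have hpZ : (p : ℤ) ≠ 0 := by omega
  have hpqI : IsCoprime (q : ℤ) (p : ℤ) := Nat.isCoprime_iff_coprime.2 hpq.symm
  set S : Finset ℕ := (p * q).primeFactors with hS
  have hSp : ∀ x ∈ S, x.Prime := fun x hx => Nat.prime_of_mem_primeFactors hx
  have hpq0 : p * q ≠ 0 := mul_ne_zero (by omega) (by omega)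
  have hpS : Smooth S p := ⟨by omega, Nat.primeFactors_mono (Dvd.intro q rfl) hpq0⟩
  have hqS : Smooth S q := ⟨by omega, Nat.primeFactors_mono (Dvd.intro_left p rfl) hpq0⟩
  have hpow : ∀ {a : ℕ}, Smooth S a → ∀ i, Smooth S (a ^ i) := by
    intro a ha i
    induction i with
    | zero => exact ⟨by simp, by simp⟩
    | succ i ih =>
      rw [pow_succ]
      refine ⟨mul_ne_zero ih.1 ha.1, ?_⟩
      rw [Nat.primeFactors_mul ih.1 ha.1]
      exact Finset.union_subset ih.2 ha.2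
  have hmulS : ∀ {a b : ℕ}, Smooth S a → Smooth S b → Smooth S (a * b) := by
    intro a b ha hb
    refine ⟨mul_ne_zero ha.1 hb.1, ?_⟩
    rw [Nat.primeFactors_mul ha.1 hb.1]
    exact Finset.union_subset ha.2 hb.2
  set C0 : ℕ := 8 * R * p * C + 4 * R * C + 1 with hC0
  set η : ℝ := 1 / 4 * Real.log q with hη
  have hη0 : 0 < η := by positivity
  choose δ hδ n0 hfin using fun k => Pool.Agent.TH932.S2.Pw.fin hp hq hpqI k (C0 : ℝ) η hη0
  set n1 : ℕ := (Finset.range (D * D' + 1)).sup (fun k => max (n0 k) ⌈(H' : ℝ) / δ k⌉₊) with hn1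
  obtain ⟨M1, hM1⟩ := classes S hSp (D * D') H'
  refine ⟨max M1 (R * (2 * (n1 + 1))), ?_⟩
  intro m hm T hTD hTC hsep hTm Q hQ1 hQ2 hQ3 ⟨N0, hN0, hN0e⟩ P
  by_contra hcon
  push Not at hcon
  set L : ℕ := m / R / 2 with hL
  set V : ℕ → ℕ := fun N => Nat.log q (p ^ N) with hV
  set W : ℕ := T.sup V with hW
  have hmR : 2 * (n1 + 1) ≤ m / R := by
    rw [Nat.le_div_iff_mul_le hR, mul_comm]
    exact (le_max_right _ _).trans hm
  have hL1 : n1 + 1 ≤ L := by omega
  have hL2 : m / R ≤ 2 * L + 1 := by omega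
  have hL3 : 2 * L ≤ m / R := by omega
  have hm2 : m ≤ 4 * R * L := by
    have h1 : m < (m / R + 1) * R := by
      have := Nat.lt_div_mul_add (a := m) hR
      rw [Nat.add_mul, one_mul]; omega
    have h2 : (m / R + 1) * R ≤ (2 * L + 1 + 1) * R := Nat.mul_le_mul_right _ (by omega)
    have h3 : (2 * L + 1 + 1) * R ≤ (4 * L) * R := Nat.mul_le_mul_right _ (by omega)
    calc m ≤ (4 * L) * R := by omega
      _ = 4 * R * L := by ring
  have hVW : ∀ N ∈ T, V N ≤ W := fun N hN => Finset.le_sup (f := V) hN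
  have hTCL : ∀ N ∈ T, N ≤ 4 * R * C * L := by
    intro N hN
    calc N ≤ C * m := hTC N hN
      _ ≤ C * (4 * R * L) := Nat.mul_le_mul_left _ hm2
      _ = 4 * R * C * L := by ring
  have hVb : ∀ N ∈ T, V N ≤ 4 * R * p * C * L := by
    intro N hN
    calc V N ≤ p * N := log_le_mul hp hq N
      _ ≤ p * (4 * R * C * L) := Nat.mul_le_mul_left _ (hTCL N hN)
      _ = 4 * R * p * C * L := by ring
  have hWb : W ≤ 4 * R * p * C * L := Finset.sup_le hVb
  -- the terms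
  set A : ℕ → ℕ := fun N => p ^ N * q ^ (W - V N) with hA
  have hrowA : ∀ N ∈ T, (A N : ℝ) = row p q N * (q : ℝ) ^ W := by
    intro N hN
    simp only [hA, row, hV]
    push_cast
    rw [div_mul_eq_mul_div, mul_div_assoc]
    congr 1
    rw [eq_div_iff (by positivity), ← pow_add]
    congr 1
    have := hVW N hN
    simp only [hV] at this
    omega
  set T' : Finset (Σ _ : ℕ, ℕ) := T.sigma (fun N => (Q N).support) with hT'
  have hT'card : T'.card ≤ D * D' := by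
    rw [hT', Finset.card_sigma]
    calc ∑ q ∈ T, (Q q).support.card ≤ ∑ q ∈ T, D' :=
          Finset.sum_le_sum fun q hq => hQ1 q hq
      _ = T.card * D' := by rw [Finset.sum_const, smul_eq_mul]
      _ ≤ D * D' := Nat.mul_le_mul_right _ hTD
  have hinner : ∀ N, ∑ i ∈ (Q N).support, ((A N * q ^ (L + i) : ℕ) : ℤ) * (Q N).coeff i =
      (A N : ℤ) * ((q : ℤ) ^ L * (Q N).eval (q : ℤ)) := by
    intro N
    rw [eval_eq_sum, Polynomial.sum_def, Finset.mul_sum, Finset.mul_sum]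
    apply Finset.sum_congr rfl
    intro i _
    push_cast
    rw [pow_add]; ring
  have hval : ∑ z ∈ T', ((A z.1 * q ^ (L + z.2) : ℕ) : ℤ) * (Q z.1).coeff z.2 =
      ∑ N ∈ T, (A N : ℤ) * ((q : ℤ) ^ L * (Q N).eval (q : ℤ)) := by
    rw [hT', Finset.sum_sigma]
    exact Finset.sum_congr rfl fun N _ => hinner N
  set x : ℤ := ∑ z ∈ T', ((A z.1 * q ^ (L + z.2) : ℕ) : ℤ) * (Q z.1).coeff z.2 - (q : ℤ) ^ W * P
    with hx
  have hxR : (x : ℝ) = (q : ℝ) ^ W * (∑ N ∈ T, row p q N *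
      ((q : ℝ) ^ L * (((Q N).eval (q : ℤ) : ℤ) : ℝ)) - P) := by
    rw [hx, hval]
    push_cast
    rw [mul_sub, Finset.mul_sum]
    congr 1
    apply Finset.sum_congr rfl
    intro N hN
    rw [hrowA N hN]
    ring
  have hxb : |(x : ℝ)| * Real.exp (η * L) ≤ (q : ℝ) ^ W := by
    rw [hxR, abs_mul, abs_of_pos (by positivity : (0 : ℝ) < (q : ℝ) ^ W), mul_assoc]
    have h1 : |∑ N ∈ T, row p q N * ((q : ℝ) ^ L * (((Q N).eval (q : ℤ) : ℤ) : ℝ)) - P| *
        Real.exp (η * L) ≤ 1 := by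
      calc _ ≤ Real.exp (-(1 / 4 * ((L : ℕ) * Real.log q))) * Real.exp (η * L) :=
            mul_le_mul_of_nonneg_right hcon (Real.exp_pos _).le
        _ = 1 := by
            rw [← Real.exp_add, hη]
            have : -(1 / 4 * ((L : ℝ) * Real.log q)) + 1 / 4 * Real.log q * L = 0 := by ring
            rw [this, Real.exp_zero]
    calc (q : ℝ) ^ W * _ ≤ (q : ℝ) ^ W * 1 := mul_le_mul_of_nonneg_left h1 (by positivity)
      _ = (q : ℝ) ^ W := mul_one _
  -- the exponents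
  have hexp : ∀ z ∈ T', W - V z.1 + (L + z.2) + L ≤ W ∧
      W - V z.1 + (L + z.2) ≤ 8 * R * p * C * L + L := by
    intro z hz
    obtain ⟨hz1, hz2⟩ := Finset.mem_sigma.1 hz
    have h1 : z.2 ≤ V z.1 - m / R := (le_natDegree_of_mem_supp _ hz2).trans (hQ3 _ hz1)
    have h2 := hVW _ hz1
    have h3 : m / R ≤ V z.1 := hTm _ hz1
    have h4 := hVb _ hz1
    refine ⟨by omega, ?_⟩
    have h5 : 8 * R * p * C * L = 4 * R * p * C * L + 4 * R * p * C * L := by ring
    omega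
  -- the finite family
  let f : Fin T'.card ≃ T' := T'.equivFin.symm
  have hsumf : ∀ F : (Σ _ : ℕ, ℕ) → ℤ, ∑ i : Fin T'.card, F (f i) = ∑ z ∈ T', F z := by
    intro F
    rw [← Finset.sum_coe_sort T' F]
    exact Equiv.sum_comp f (fun i : T' => F (i : Σ _ : ℕ, ℕ))
  have hkle : max (n0 T'.card) ⌈(H' : ℝ) / δ T'.card⌉₊ ≤ L := by
    refine le_trans ?_ (by omega : n1 ≤ L)
    exact Finset.le_sup (f := fun k => max (n0 k) ⌈(H' : ℝ) / δ k⌉₊)
      (Finset.mem_range.2 (by omega))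
  have hHle : (H' : ℝ) ≤ Real.exp (δ T'.card * L) := by
    have h1 : (H' : ℝ) / δ T'.card ≤ L := by
      refine (Nat.le_ceil _).trans ?_
      exact_mod_cast (le_max_right _ _).trans hkle
    rw [div_le_iff₀ (hδ _)] at h1
    have h2 := Real.add_one_le_exp (δ T'.card * L)
    have h3 : (L : ℝ) * δ T'.card = δ T'.card * L := by ring
    linarith
  have hterm : ∀ z : (Σ _ : ℕ, ℕ), ((A z.1 * q ^ (L + z.2) : ℕ) : ℤ) * (Q z.1).coeff z.2 =
      (Q z.1).coeff z.2 * ((p : ℤ) ^ z.1 * (q : ℤ) ^ (W - V z.1 + (L + z.2))) := by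
    intro z
    simp only [hA]
    push_cast
    ring
  have hzero := hfin T'.card L ((le_max_left _ _).trans hkle) (fun i => (f i).1.1)
    (fun i => W - V (f i).1.1 + (L + (f i).1.2)) (fun i => (Q (f i).1.1).coeff (f i).1.2) x 0 W
    (by
      intro i
      obtain ⟨hz1, hz2⟩ := Finset.mem_sigma.1 (f i).2
      have h1 := hTCL _ hz1
      have h2 := (hexp _ (f i).2).2
      refine ⟨?_, ?_, ?_⟩
      · have h3 : (f i).1.1 ≤ C0 * L := h1.trans (by rw [hC0]; nlinarith)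
        exact_mod_cast h3
      · have h3 : W - V (f i).1.1 + (L + (f i).1.2) ≤ C0 * L :=
          h2.trans (by rw [hC0]; nlinarith)
        exact_mod_cast h3
      · refine le_trans ?_ hHle
        exact_mod_cast hQ2 _ hz1 _)
    (by
      rw [Nat.cast_zero]
      positivity)
    (by
      have h3 : W ≤ C0 * L := hWb.trans (by rw [hC0]; nlinarith)
      exact_mod_cast h3)
    (by
      rw [hsumf (fun z => (Q z.1).coeff z.2 *
        ((p : ℤ) ^ z.1 * (q : ℤ) ^ (W - V z.1 + (L + z.2))))]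
      rw [← Finset.sum_congr rfl (fun z _ => hterm z), hx, sub_sub_cancel, pow_zero, one_mul]
      exact Dvd.intro P rfl)
    (by
      rw [pow_zero, one_mul]
      exact hxb)
    (by
      intro i _
      have h1 := (hexp _ (f i).2).1
      obtain ⟨hz1, hz2⟩ := Finset.mem_sigma.1 (f i).2
      have h2 := hVW _ hz1
      constructor
      · refine hxb.trans ?_
        have h3 : q ^ (V (f i).1.1) ≤ p ^ (f i).1.1 :=
          Nat.pow_log_le_self q (pow_pos (by omega) _).ne'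
        have h4 : q ^ W ≤ p ^ (f i).1.1 * q ^ (W - V (f i).1.1 + (L + (f i).1.2)) := by
          calc q ^ W = q ^ (V (f i).1.1) * q ^ (W - V (f i).1.1) := by
                rw [← pow_add]; congr 1; omega
            _ ≤ p ^ (f i).1.1 * q ^ (W - V (f i).1.1 + (L + (f i).1.2)) :=
                Nat.mul_le_mul h3 (Nat.pow_le_pow_right (by omega) (by omega))
        exact_mod_cast h4
      · have h3 : ((W - V (f i).1.1 + (L + (f i).1.2) : ℕ) : ℝ) + L ≤ W := by
          exact_mod_cast h1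
        have h4 : (0 : ℝ) ≤ L := Nat.cast_nonneg _
        rw [hη]
        nlinarith)
  rw [hsumf (fun z => (Q z.1).coeff z.2 *
    ((p : ℤ) ^ z.1 * (q : ℤ) ^ (W - V z.1 + (L + z.2)))),
    ← Finset.sum_congr rfl (fun z _ => hterm z)] at hzero
  -- the classes
  have hcl := hM1 (Σ _ : ℕ, ℕ) T' (fun z => A z.1 * q ^ (L + z.2))
    (fun z => (Q z.1).coeff z.2) (fun z => z.1) hT'card
    (fun z _ => hmulS (hmulS (hpow hpS _) (hpow hqS _)) (hpow hqS _))
    (by
      intro z hz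
      obtain ⟨hz1, hz2⟩ := Finset.mem_sigma.1 hz
      exact hQ2 _ hz1 _)
    (by
      intro z hz z' hz' ⟨u, v, hu0, hu, hv0, hv, huv⟩
      obtain ⟨hz1, hz2⟩ := Finset.mem_sigma.1 hz
      obtain ⟨hz1', hz2'⟩ := Finset.mem_sigma.1 hz'
      by_contra hne
      have h1 : u * (p ^ z.1 * q ^ (W - V z.1 + (L + z.2))) =
          v * (p ^ z'.1 * q ^ (W - V z'.1 + (L + z'.2))) := by
        simp only [hA] at huv
        calc u * (p ^ z.1 * q ^ (W - V z.1 + (L + z.2)))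
            = u * (p ^ z.1 * q ^ (W - V z.1) * q ^ (L + z.2)) := by rw [pow_add]; ring
          _ = v * (p ^ z'.1 * q ^ (W - V z'.1) * q ^ (L + z'.2)) := huv
          _ = v * (p ^ z'.1 * q ^ (W - V z'.1 + (L + z'.2))) := by
              rw [pow_add _ (W - V z'.1)]; ring
      rcases hsep _ hz1 _ hz1' hne with h2 | h2
      · exact near_pow hp hpq hu hu0 (le_max_left _ _) h1 h2
      · exact near_pow hp hpq hv hv0 (le_max_left _ _) h1.symm h2)
    hzero N0
  have h2 : T'.filter (fun z => z.1 = N0) =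
      ({N0} : Finset ℕ).sigma (fun N => (Q N).support) := by
    ext z
    simp only [hT', Finset.mem_filter, Finset.mem_sigma, Finset.mem_singleton]
    constructor
    · rintro ⟨⟨_, h4⟩, h5⟩
      exact ⟨h5, h4⟩
    · rintro ⟨h3, h4⟩
      exact ⟨⟨by rw [h3]; exact hN0, h4⟩, h3⟩
  rw [h2, Finset.sum_sigma, Finset.sum_singleton] at hcl
  simp only at hcl
  rw [hinner N0] at hcl
  have h3 : (A N0 : ℤ) ≠ 0 := by
    simp only [hA]
    exact_mod_cast mul_ne_zero (pow_ne_zero _ (by omega)) (pow_ne_zero _ (by omega))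
  exact mul_ne_zero h3 (mul_ne_zero (pow_ne_zero _ hqZ) hN0e) hcl

end Pool.Agent.TH419.WI
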