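import Mathlib
import Pool.Agent.TH419.WI.Powers

set_option autoImplicit false

open Finset Polynomial

namespace Pool.Agent.TH419.WI

open Pool.Agent.H648R2.S

lemma per_add_mul {f : ℕ → ℝ} {p : ℕ} (hf : ∀ i, f (i + p) = f i) (a k : ℕ) :
    f (a + p * k) = f a := by
  induction k with
  | zero => simp
  | succ k ih => rw [Nat.mul_succ, ← add_assoc, hf, ih]

/-- reading a periodic sequence backwards -/
lemma reverse_per {f : ℕ → ℝ} {p : ℕ} (hp : 0 < p) (hf : ∀ i, f (i + p) = f i) (m i : ℕ)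
    (hi : i < m) : f (m - 1 + (p - 1) * i) = f (m - 1 - i) := by
  have h1 : m - 1 + (p - 1) * i = m - 1 - i + p * i := by
    obtain ⟨k, rfl⟩ : ∃ k, p = k + 1 := ⟨p - 1, by omega⟩
    rw [Nat.add_sub_cancel, Nat.add_mul, one_mul]
    omega
  rw [h1, per_add_mul hf]

/-- the digits of `p ^ N` as digits of its row -/
lemma dig_row {p q : ℕ} (hp : 2 ≤ p) (hq : 2 ≤ q) (N t m i : ℕ) (hi : i < m)
    (ht : q ^ (t + m) ≤ p ^ N) :
    dig q (row p q N) (Nat.log q (p ^ N) - (t + m) + i + 1) =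
      ((p ^ N / q ^ (t + (m - 1 - i)) % q : ℕ) : ℤ) := by
  have hq0 : (0 : ℝ) < q := by exact_mod_cast (by omega : 0 < q)
  have hV : t + m ≤ Nat.log q (p ^ N) := by
    rw [Nat.le_log_iff_pow_le (by omega) (pow_pos (by omega) N).ne']
    exact ht
  have h1 : row p q N * (q : ℝ) ^ (Nat.log q (p ^ N) - (t + m) + i + 1) =
      ((p ^ N : ℕ) : ℝ) / ((q ^ (t + (m - 1 - i)) : ℕ) : ℝ) := by
    unfold row
    rw [div_mul_eq_mul_div, div_eq_div_iff (by positivity) (by positivity)]
    push_cast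
    rw [mul_assoc, ← pow_add]
    congr 2
    omega
  unfold dig
  rw [h1, ← Int.natCast_floor_eq_floor (by positivity), Nat.floor_div_eq_div]
  push_cast
  rfl

/-- **Window independence for powers.** -/
theorem windowsP (p q : ℕ) (hp : 2 ≤ p) (hq : 2 ≤ q) (hpq : p.Coprime q)
    (D E K C : ℕ) (ε : ℝ) (hε : 0 < ε) :
    ∃ M : ℕ, ∀ m : ℕ, M ≤ m → ∀ N t : Fin D → ℕ, Function.Injective (fun j => (N j, t j)) →
      (∀ j, N j ≤ C * m) → (∀ j, q ^ (t j + m) ≤ p ^ (N j)) →
      (∀ i j, N i ≠ N j → N i + M ≤ N j ∨ N j + M ≤ N i) →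
      ∀ lam : Fin D → ℝ, lam ≠ 0 → ∀ per : Fin E → ℕ, (∀ l, 0 < per l) →
      ((∑ l, per l : ℕ) : ℝ) ≤ (1 - ε) * m / (K + 1) →
      ∀ f : Fin E → ℕ → ℝ, (∀ l i, f l (i + per l) = f l i) →
      K < ((Finset.range m).filter (fun i =>
        ∑ j, lam j * ((p ^ (N j) / q ^ (t j + i) % q : ℕ) : ℝ) ≠ ∑ l, f l i)).card := by
  classical
  obtain ⟨D', H', R, M1, hR, hgen⟩ := generalD q hq q D E K ε hε
  obtain ⟨M2, hinp⟩ := inputP p q hp hq hpq D D' H' C R hR
  refine ⟨max M1 M2, ?_⟩
  intro m hm N t hinj hNC ht hsep lam hlam per hper hsum f hf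
  have hV : ∀ j, t j + m ≤ Nat.log q (p ^ N j) := by
    intro j
    rw [Nat.le_log_iff_pow_le (by omega) (pow_pos (by omega) _).ne']
    exact ht j
  have hmR : m / R ≤ m := Nat.div_le_self _ _
  have hTmem : ∀ n ∈ Finset.univ.image N, ∃ j, N j = n := by
    intro n hn
    obtain ⟨j, _, hj⟩ := Finset.mem_image.1 hn
    exact ⟨j, hj⟩
  have hmain := hgen ℕ (fun n => row p q n) (fun n i => dig q (row p q n) i)
    (fun n i => Int.fract (row p q n * (q : ℝ) ^ i)) N
    (fun j i => dig_abs hq _ _)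
    (fun j i => by
      rw [abs_of_nonneg (Int.fract_nonneg _)]
      have h1 := (Int.fract_lt_one (row p q (N j) * (q : ℝ) ^ i)).le
      have h2 : (1 : ℝ) ≤ q := by exact_mod_cast (by omega : 1 ≤ q)
      linarith)
    (fun j i => dig_rec hq _ _)
    (fun j i => ⟨⌊row p q (N j) * (q : ℝ) ^ i⌋, by rw [Int.self_sub_fract]⟩)
    m ((le_max_left _ _).trans hm) (fun n => Nat.log q (p ^ n) - m / R)
    (hinp m ((le_max_right _ _).trans hm) (Finset.univ.image N)
      (Finset.card_image_le.trans (by simp))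
      (by intro n hn; obtain ⟨j, rfl⟩ := hTmem n hn; exact hNC j)
      (by
        intro n hn n' hn' hne
        obtain ⟨i, rfl⟩ := hTmem n hn
        obtain ⟨j, rfl⟩ := hTmem n' hn'
        have h1 : M2 ≤ max M1 M2 := le_max_right _ _
        rcases hsep i j hne with h2 | h2
        · left; omega
        · right; omega)
      (by
        intro n hn
        obtain ⟨j, rfl⟩ := hTmem n hn
        have := hV j
        omega))
    (fun j => Nat.log q (p ^ N j) - (t j + m))
    (by
      intro i j hij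
      simp only [Prod.mk.injEq] at hij
      obtain ⟨h1, h2⟩ := hij
      apply hinj
      simp only [Prod.mk.injEq]
      refine ⟨h1, ?_⟩
      rw [h1] at h2
      have h3 := hV i
      have h4 := hV j
      rw [h1] at h3
      omega)
    (by
      intro j
      have := hV j
      omega)
    lam hlam per hper hsum (fun l i => f l (m - 1 + (per l - 1) * i))
    (by
      intro l i
      have h1 : m - 1 + (per l - 1) * (i + per l) =
          m - 1 + (per l - 1) * i + per l * (per l - 1) := by ring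
      rw [h1, per_add_mul (hf l)])
  refine lt_of_lt_of_le hmain (le_of_eq ?_)
  have hdg : ∀ j i, i < m →
      (dig q (row p q (N j)) (Nat.log q (p ^ N j) - (t j + m) + i + 1) : ℝ) =
      ((p ^ (N j) / q ^ (t j + (m - 1 - i)) % q : ℕ) : ℝ) := by
    intro j i hi
    rw [dig_row hp hq (N j) (t j) m i hi (ht j)]
    exact Int.cast_natCast _
  have hA : ∀ i, i < m → ((∑ j, lam j *
      (dig q (row p q (N j)) (Nat.log q (p ^ N j) - (t j + m) + i + 1) : ℝ) ≠
      ∑ l, f l (m - 1 + (per l - 1) * i)) ↔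
      (∑ j, lam j * ((p ^ (N j) / q ^ (t j + (m - 1 - i)) % q : ℕ) : ℝ) ≠
        ∑ l, f l (m - 1 - i))) := by
    intro i hi
    have h1 : ∑ j, lam j *
        (dig q (row p q (N j)) (Nat.log q (p ^ N j) - (t j + m) + i + 1) : ℝ) =
        ∑ j, lam j * ((p ^ (N j) / q ^ (t j + (m - 1 - i)) % q : ℕ) : ℝ) :=
      Finset.sum_congr rfl fun j _ => by rw [hdg j i hi]
    have h2 : ∑ l, f l (m - 1 + (per l - 1) * i) = ∑ l, f l (m - 1 - i) :=
      Finset.sum_congr rfl fun l _ => reverse_per (hper l) (hf l) m i hi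
    rw [h1, h2]
  have hB : (Finset.range m).filter (fun i => ∑ j, lam j *
      (dig q (row p q (N j)) (Nat.log q (p ^ N j) - (t j + m) + i + 1) : ℝ) ≠
      ∑ l, f l (m - 1 + (per l - 1) * i)) =
      ((Finset.range m).filter (fun i =>
        ∑ j, lam j * ((p ^ (N j) / q ^ (t j + i) % q : ℕ) : ℝ) ≠ ∑ l, f l i)).image
        (fun i => m - 1 - i) := by
    ext i
    simp only [Finset.mem_filter, Finset.mem_range, Finset.mem_image]
    constructor
    · rintro ⟨h1, h2⟩
      refine ⟨m - 1 - i, ⟨by omega, (hA i h1).1 h2⟩, by omega⟩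
    · rintro ⟨i', ⟨h1, h2⟩, rfl⟩
      refine ⟨by omega, (hA (m - 1 - i') (by omega)).2 ?_⟩
      have h3 : m - 1 - (m - 1 - i') = i' := by omega
      rw [h3]
      exact h2
  rw [hB, Finset.card_image_of_injOn]
  intro i hi i' hi' h
  simp only [Finset.coe_filter, Finset.mem_range, Set.mem_ofPred_eq] at hi hi' h
  omega

end Pool.Agent.TH419.WI
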