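import Mathlib
import Pool.Agent.TH419.WI.GeneralR
import Pool.Agent.TH419.WI.Classes

set_option autoImplicit false

open Finset Polynomial

namespace Pool.Agent.TH419.WI

open Pool.Agent.H648R2.S

lemma eval_sum (Q : ℤ[X]) (b L a : ℕ) :
    ∑ i ∈ Q.support, ((a * b ^ (L + i) : ℕ) : ℤ) * Q.coeff i =
      (a : ℤ) * ((b : ℤ) ^ L * Q.eval (b : ℤ)) := by
  rw [eval_eq_sum, Polynomial.sum_def, Finset.mul_sum, Finset.mul_sum]
  apply Finset.sum_congr rfl
  intro i _
  push_cast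
  rw [pow_add]; ring

lemma Smooth.mul {S : Finset ℕ} {a b : ℕ} (ha : Smooth S a) (hb : Smooth S b) :
    Smooth S (a * b) :=
  ⟨mul_ne_zero ha.1 hb.1, by
    rw [Nat.primeFactors_mul ha.1 hb.1]
    exact Finset.union_subset ha.2 hb.2⟩

lemma Smooth.of_dvd {S : Finset ℕ} {a b : ℕ} (hb : Smooth S b) (h : a ∣ b) : Smooth S a :=
  ⟨fun h0 => hb.1 (by rw [h0] at h; exact Nat.eq_zero_of_zero_dvd h),
    (Nat.primeFactors_mono h hb.1).trans hb.2⟩

lemma Smooth.pow {S : Finset ℕ} {a : ℕ} (ha : Smooth S a) (i : ℕ) : Smooth S (a ^ i) := by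
  induction i with
  | zero => exact ⟨by simp, by simp⟩
  | succ i ih => rw [pow_succ]; exact ih.mul ha

/-- a positive rational with smooth numerator and denominator -/
def SmoothQ (S : Finset ℕ) (a : ℚ) : Prop :=
  0 < a ∧ Smooth S a.num.natAbs ∧ Smooth S a.den

/-- the arithmetic input of `generalR` -/
theorem input {n : ℕ} (ξ : Fin n → ℝ) (hξ : ∀ k, IsAlgebraic ℚ (ξ k))
    (hind : LinearIndependent ℚ (Fin.cons 1 ξ : Fin (n + 1) → ℝ)) (b : ℕ) (hb : 2 ≤ b)
    (S : Finset ℕ) (hS : ∀ p ∈ S, p.Prime) (hbS : b.primeFactors ⊆ S)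
    (R C D D' H' C' : ℕ) (hR : 0 < R) :
    ∃ M : ℕ, ∀ m : ℕ, M ≤ m → ∀ T : Finset (Fin n × ℚ), T.card ≤ D →
      (∀ q ∈ T, SmoothQ S q.2) → (∀ q ∈ T, 1 ≤ q.2) → (∀ q ∈ T, q.2.num.natAbs ≤ b ^ (C * m)) →
      (∀ q ∈ T, q.2.den ≤ b ^ (C * m)) →
      (∀ q ∈ T, ∀ q' ∈ T, q.1 = q'.1 → ∀ u v : ℕ, 0 < u → u ≤ M → 0 < v → v ≤ M → ∀ s : ℤ,
        (u : ℚ) * (b : ℚ) ^ s * q.2 = v * q'.2 → q.2 = q'.2) →
      ∀ Q : Fin n × ℚ → ℤ[X], (∀ q ∈ T, (Q q).support.card ≤ D') →
        (∀ q ∈ T, ∀ i, |(Q q).coeff i| ≤ H') → (∀ q ∈ T, (Q q).natDegree ≤ C' * (m / R)) →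
        (∃ q ∈ T, (Q q).eval (b : ℤ) ≠ 0) → ∀ P : ℤ,
        Real.exp (-(1 / 4 * ((m / R / 2 : ℕ) * Real.log b))) <
          |∑ q ∈ T, ((q.2 : ℝ) * ξ q.1) *
            ((b : ℝ) ^ (m / R / 2) * (((Q q).eval (b : ℤ) : ℤ) : ℝ)) - P| := by
  classical
  have hbR : (2 : ℝ) ≤ b := by exact_mod_cast hb
  have hb0 : (0 : ℝ) < b := by linarith
  have hlogb : 0 < Real.log b := Real.log_pos (by linarith)
  have hbZ : (b : ℤ) ≠ 0 := by omega
  have hbQ : (b : ℚ) ≠ 0 := by exact_mod_cast (by omega : b ≠ 0)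
  have hbsm : ∀ i, Smooth S (b ^ i) := fun i => Smooth.pow ⟨by omega, hbS⟩ i
  set CC : ℕ := 4 * R * (C * (D + 1)) + 1 + 3 * C' with hCC
  obtain ⟨L0, hL0⟩ := arithF ξ hξ S hS (D * D') H' (CC * Real.log b)
    (1 / 4 * Real.log b) (by positivity) (by positivity)
  obtain ⟨M1, hM1⟩ := classes S hS (D * D') H'
  refine ⟨max M1 (R * (2 * (L0 + 1))), ?_⟩
  intro m hm T hTD hTs hT1 hTn hTd hsep Q hQ1 hQ2 hQ3 ⟨q0, hq0, hq0e⟩ P
  set L : ℕ := m / R / 2 with hL
  have hmR : 2 * (L0 + 1) ≤ m / R := by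
    rw [Nat.le_div_iff_mul_le hR, mul_comm]
    exact (le_max_right _ _).trans hm
  have hL1 : L0 + 1 ≤ L := by omega
  have hL2 : m / R ≤ 2 * L + 1 := by omega
  have hm2 : m ≤ 4 * R * L := by
    have h1 : m < (m / R + 1) * R := by
      have := Nat.lt_div_mul_add (a := m) hR
      rw [Nat.add_mul, one_mul]; omega
    have h2 : (m / R + 1) * R ≤ (2 * L + 1 + 1) * R := Nat.mul_le_mul_right _ (by omega)
    have h3 : (2 * L + 1 + 1) * R ≤ (4 * L) * R := Nat.mul_le_mul_right _ (by omega)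
    calc m ≤ (4 * L) * R := by omega
      _ = 4 * R * L := by ring
  -- the common denominator and the integer multipliers
  set d : ℕ := ∏ q ∈ T, q.2.den with hd
  have hd0 : 0 < d := Finset.prod_pos fun q _ => q.2.den_pos
  have hdsm : Smooth S d := by
    refine ⟨hd0.ne', ?_⟩
    intro p hp
    rw [Nat.mem_primeFactors] at hp
    obtain ⟨q, hq, hpq⟩ := (Nat.Prime.prime hp.1).exists_mem_finset_dvd hp.2.1
    exact (hTs q hq).2.2.2 (Nat.mem_primeFactors.2 ⟨hp.1, hpq, q.2.den_ne_zero⟩)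
  have hdb : d ≤ b ^ (C * D * m) := by
    calc d ≤ ∏ _q ∈ T, b ^ (C * m) := Finset.prod_le_prod' fun q hq => hTd q hq
      _ = (b ^ (C * m)) ^ T.card := by rw [Finset.prod_const]
      _ ≤ (b ^ (C * m)) ^ D := Nat.pow_le_pow_right (by positivity) hTD
      _ = b ^ (C * D * m) := by rw [← pow_mul]; congr 1; ring
  set Rq : Fin n × ℚ → ℕ := fun q => q.2.num.natAbs * (d / q.2.den) with hRq
  have hRval : ∀ q ∈ T, (Rq q : ℚ) = q.2 * d := by
    intro q hq
    have h1 : q.2.den ∣ d := Finset.dvd_prod_of_mem (fun q : Fin n × ℚ => q.2.den) hq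
    have h2 : ((d / q.2.den : ℕ) : ℚ) = (d : ℚ) / q.2.den :=
      Nat.cast_div h1 (by exact_mod_cast q.2.den_ne_zero)
    have h3 : ((q.2.num.natAbs : ℕ) : ℚ) = (q.2.num : ℚ) := by
      have h4 : ((q.2.num.natAbs : ℕ) : ℤ) = q.2.num :=
        Int.natAbs_of_nonneg (Rat.num_pos.2 (hTs q hq).1).le
      rw [← Int.cast_natCast (R := ℚ) q.2.num.natAbs, h4]
    simp only [hRq]
    rw [Nat.cast_mul, h2, h3]
    conv_rhs => rw [← Rat.num_div_den q.2]
    ring
  have hRvalR : ∀ q ∈ T, (Rq q : ℝ) = q.2 * d := by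
    intro q hq
    exact_mod_cast congrArg (Rat.cast (K := ℝ)) (hRval q hq)
  have hRsm : ∀ q ∈ T, Smooth S (Rq q) := by
    intro q hq
    have h1 : q.2.den ∣ d := Finset.dvd_prod_of_mem (fun q : Fin n × ℚ => q.2.den) hq
    exact (hTs q hq).2.1.mul (hdsm.of_dvd (Nat.div_dvd_of_dvd h1))
  have hRle : ∀ q ∈ T, Rq q ≤ b ^ (C * (D + 1) * m) := by
    intro q hq
    calc Rq q ≤ b ^ (C * m) * b ^ (C * D * m) :=
          Nat.mul_le_mul (hTn q hq) ((Nat.div_le_self _ _).trans hdb)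
      _ = b ^ (C * (D + 1) * m) := by rw [← pow_add]; congr 1; ring
  have hRge : ∀ q ∈ T, d ≤ Rq q := by
    intro q hq
    have h1 : (d : ℚ) ≤ Rq q := by
      rw [hRval q hq]
      have h2 := hT1 q hq
      have h3 : (0 : ℚ) < d := by exact_mod_cast hd0
      nlinarith
    exact_mod_cast h1
  have hR0 : ∀ q ∈ T, Rq q ≠ 0 := fun q hq => (hRsm q hq).1
  -- the terms
  have hterm : ∀ U : Finset (Fin n × ℚ), U ⊆ T →
      (U.sigma (fun q => (Q q).support)).card ≤ D * D' := by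
    intro U hU
    rw [Finset.card_sigma]
    calc ∑ q ∈ U, (Q q).support.card ≤ ∑ q ∈ U, D' :=
          Finset.sum_le_sum fun q hq => hQ1 q (hU hq)
      _ = U.card * D' := by rw [Finset.sum_const, smul_eq_mul]
      _ ≤ D * D' := Nat.mul_le_mul_right _ ((Finset.card_le_card hU).trans hTD)
  have hval : ∀ U : Finset (Fin n × ℚ), ∑ z ∈ U.sigma (fun q => (Q q).support),
      ((Rq z.1 * b ^ (L + z.2) : ℕ) : ℤ) * (Q z.1).coeff z.2 =
      ∑ q ∈ U, (Rq q : ℤ) * ((b : ℤ) ^ L * (Q q).eval (b : ℤ)) := by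
    intro U
    rw [Finset.sum_sigma]
    apply Finset.sum_congr rfl
    intro q _
    exact eval_sum (Q q) b L (Rq q)
  have hvalR : ∑ z ∈ T.sigma (fun q => (Q q).support),
      ξ z.1.1 * ((((Rq z.1 * b ^ (L + z.2) : ℕ) : ℤ) * (Q z.1).coeff z.2 : ℤ) : ℝ) =
      (d : ℝ) * ∑ q ∈ T, ((q.2 : ℝ) * ξ q.1) *
        ((b : ℝ) ^ L * (((Q q).eval (b : ℤ) : ℤ) : ℝ)) := by
    rw [Finset.sum_sigma, Finset.mul_sum]
    apply Finset.sum_congr rfl
    intro q hq
    simp only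
    rw [← Finset.mul_sum]
    have h1 := congrArg (Int.cast (R := ℝ)) (eval_sum (Q q) b L (Rq q))
    rw [Int.cast_sum] at h1
    rw [h1]
    push_cast
    rw [hRvalR q hq]
    ring
  -- irrationality
  have hirr : Irrational (∑ z ∈ T.sigma (fun q => (Q q).support),
      ξ z.1.1 * ((((Rq z.1 * b ^ (L + z.2) : ℕ) : ℤ) * (Q z.1).coeff z.2 : ℤ) : ℝ)) := by
    rintro ⟨c, hc⟩
    -- the integers `N k`
    set N : Fin n → ℤ := fun k => ∑ q ∈ T.filter (fun q => q.1 = k),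
      (Rq q : ℤ) * ((b : ℤ) ^ L * (Q q).eval (b : ℤ)) with hN
    have hgroup : ∑ z ∈ T.sigma (fun q => (Q q).support),
        ξ z.1.1 * ((((Rq z.1 * b ^ (L + z.2) : ℕ) : ℤ) * (Q z.1).coeff z.2 : ℤ) : ℝ) =
        ∑ k, (N k : ℝ) * ξ k := by
      rw [hvalR, Finset.mul_sum, ← Finset.sum_fiberwise T (fun q => q.1)]
      apply Finset.sum_congr rfl
      intro k _
      simp only [hN]
      push_cast
      rw [Finset.sum_mul]
      apply Finset.sum_congr rfl
      intro q hq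
      rw [(Finset.mem_filter.1 hq).2, hRvalR q (Finset.mem_filter.1 hq).1]
      ring
    have hN0 : ∀ k, N k = 0 := by
      rw [Fintype.linearIndependent_iff] at hind
      intro k
      have h1 := hind (Fin.cons (-c) (fun k => (N k : ℚ))) (by
        rw [Fin.sum_univ_succ]
        simp only [Fin.cons_zero, Fin.cons_succ]
        have h2 : ∑ k, ((N k : ℚ)) • ξ k = ∑ k, (N k : ℝ) * ξ k := by
          apply Finset.sum_congr rfl
          intro k _
          rw [Rat.smul_def]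
          push_cast
          rfl
        rw [h2, ← hgroup, ← hc, Rat.smul_def]
        push_cast
        ring) k.succ
      rw [Fin.cons_succ] at h1
      exact_mod_cast h1
    have h1 := hM1 (Σ _ : Fin n × ℚ, ℕ)
      ((T.filter (fun q => q.1 = q0.1)).sigma (fun q => (Q q).support))
      (fun z => Rq z.1 * b ^ (L + z.2)) (fun z => (Q z.1).coeff z.2)
      (fun z => Encodable.encode z.1.2)
      (hterm _ (Finset.filter_subset _ _))
      (by
        intro z hz
        obtain ⟨hz1, hz2⟩ := Finset.mem_sigma.1 hz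
        exact (hRsm _ (Finset.mem_filter.1 hz1).1).mul (hbsm _))
      (by
        intro z hz
        obtain ⟨hz1, hz2⟩ := Finset.mem_sigma.1 hz
        exact hQ2 _ (Finset.mem_filter.1 hz1).1 _)
      (by
        intro z hz z' hz' hnear
        obtain ⟨hz1, hz2⟩ := Finset.mem_sigma.1 hz
        obtain ⟨hz1', hz2'⟩ := Finset.mem_sigma.1 hz'
        obtain ⟨ha, hb1⟩ := Finset.mem_filter.1 hz1
        obtain ⟨ha', hb1'⟩ := Finset.mem_filter.1 hz1'
        obtain ⟨u, v, hu0, hu, hv0, hv, huv⟩ := hnear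
        congr 1
        refine hsep _ ha _ ha' (hb1.trans hb1'.symm) u v hu0 (hu.trans (le_max_left _ _)) hv0
          (hv.trans (le_max_left _ _)) ((z.2 : ℤ) - (z'.2 : ℤ)) ?_
        have h2 : (u : ℚ) * ((z.1.2 * d) * (b : ℚ) ^ (L + z.2)) =
            v * ((z'.1.2 * d) * (b : ℚ) ^ (L + z'.2)) := by
          rw [← hRval _ ha, ← hRval _ ha']
          exact_mod_cast huv
        have hdQ : (d : ℚ) ≠ 0 := by exact_mod_cast hd0.ne'
        rw [zpow_sub₀ hbQ, zpow_natCast, zpow_natCast]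
        have h3 : (b : ℚ) ^ L ≠ 0 := pow_ne_zero _ hbQ
        have h4 : (b : ℚ) ^ z'.2 ≠ 0 := pow_ne_zero _ hbQ
        rw [pow_add, pow_add] at h2
        field_simp
        have h5 : ((u : ℚ) * b ^ z.2 * z.1.2 - v * z'.1.2 * b ^ z'.2) * (d * b ^ L) = 0 := by
          linear_combination h2
        have h6 := (mul_eq_zero.1 h5).resolve_right (mul_ne_zero hdQ h3)
        linear_combination h6)
      (by
        rw [hval]
        exact hN0 q0.1) (Encodable.encode q0.2)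
    have h2 : (((T.filter (fun q => q.1 = q0.1)).sigma (fun q => (Q q).support)).filter
        (fun z => Encodable.encode z.1.2 = Encodable.encode q0.2)) =
        ({q0} : Finset (Fin n × ℚ)).sigma (fun q => (Q q).support) := by
      ext z
      simp only [Finset.mem_filter, Finset.mem_sigma, Finset.mem_singleton]
      constructor
      · rintro ⟨⟨⟨_, h3⟩, h4⟩, h5⟩
        exact ⟨Prod.ext h3 (Encodable.encode_injective h5), h4⟩
      · rintro ⟨h3, h4⟩
        rw [h3]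
        rw [h3] at h4
        exact ⟨⟨⟨hq0, rfl⟩, h4⟩, rfl⟩
    rw [h2, hval, Finset.sum_singleton] at h1
    have h3 : (Rq q0 : ℤ) ≠ 0 := by exact_mod_cast hR0 q0 hq0
    exact mul_ne_zero h3 (mul_ne_zero (pow_ne_zero _ hbZ) hq0e) h1
  have hexp : ∀ N : ℕ, N ≤ b ^ (CC * L) → (N : ℝ) ≤ Real.exp (CC * Real.log b * L) := by
    intro N hN
    have h1 : (N : ℝ) ≤ (b : ℝ) ^ (CC * L) := by exact_mod_cast hN
    refine h1.trans (le_of_eq ?_)
    rw [← Real.rpow_natCast, Real.rpow_def_of_pos hb0]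
    congr 1
    push_cast
    ring
  have e4 : C * (D + 1) * m ≤ 4 * R * (C * (D + 1)) * L := by
    calc C * (D + 1) * m ≤ C * (D + 1) * (4 * R * L) := Nat.mul_le_mul_left _ hm2
      _ = 4 * R * (C * (D + 1)) * L := by ring
  have h5 := hL0 L (by omega) (Σ _ : Fin n × ℚ, ℕ) (T.sigma (fun q => (Q q).support)) d
    (fun z => Rq z.1 * b ^ (L + z.2)) (fun z => (Q z.1).coeff z.2) (fun z => z.1.1)
    (hterm T (Finset.Subset.refl _)) hdsm
    (by
      apply hexp
      refine hdb.trans (Nat.pow_le_pow_right (by omega) ?_)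
      have h6 : C * D * m ≤ C * (D + 1) * m := Nat.mul_le_mul_right _
        (Nat.mul_le_mul_left _ (by omega))
      nlinarith)
    (by
      intro z hz
      obtain ⟨hz1, hz2⟩ := Finset.mem_sigma.1 hz
      exact (hRsm _ hz1).mul (hbsm _))
    (by
      intro z hz
      obtain ⟨hz1, hz2⟩ := Finset.mem_sigma.1 hz
      calc d ≤ Rq z.1 := hRge _ hz1
        _ = Rq z.1 * 1 := (mul_one _).symm
        _ ≤ Rq z.1 * b ^ (L + z.2) := Nat.mul_le_mul_left _ (Nat.one_le_pow _ _ (by omega)))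
    (by
      intro z hz
      obtain ⟨hz1, hz2⟩ := Finset.mem_sigma.1 hz
      have e1 := hRle _ hz1
      have e2 : z.2 ≤ C' * (m / R) := (le_natDegree_of_mem_supp _ hz2).trans (hQ3 _ hz1)
      have e3 : C' * (m / R) ≤ 3 * C' * L := by
        calc C' * (m / R) ≤ C' * (3 * L) := Nat.mul_le_mul_left _ (by omega)
          _ = 3 * C' * L := by ring
      apply hexp
      calc Rq z.1 * b ^ (L + z.2) ≤ b ^ (C * (D + 1) * m) * b ^ (L + z.2) :=
            Nat.mul_le_mul_right _ e1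
        _ = b ^ (C * (D + 1) * m + (L + z.2)) := by rw [← pow_add]
        _ ≤ b ^ (CC * L) := by
            apply Nat.pow_le_pow_right (by omega)
            rw [hCC]
            nlinarith)
    (by
      intro z hz
      obtain ⟨hz1, hz2⟩ := Finset.mem_sigma.1 hz
      exact hQ2 _ hz1 _)
    hirr P
  rw [hvalR, ← mul_sub, abs_mul, abs_of_pos (by exact_mod_cast hd0 : (0 : ℝ) < (d : ℝ))] at h5
  have h6 := lt_of_mul_lt_mul_left h5 (by positivity)
  refine lt_of_le_of_lt (le_of_eq ?_) h6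
  congr 1
  ring

/-- powers of `b` in `[1, b)` -/
lemma zpow_eq_of_mem {b : ℕ} (hb : 2 ≤ b) {a a' : ℚ} (ha : 1 ≤ a) (ha2 : a < b) (ha' : 1 ≤ a')
    (ha2' : a' < b) {e : ℤ} (h : a = (b : ℚ) ^ e * a') : a = a' := by
  have hb1 : (1 : ℚ) < b := by exact_mod_cast (by omega : 1 < b)
  have hb0 : (0 : ℚ) < b := by linarith
  rcases lt_trichotomy e 0 with he | he | he
  · exfalso
    have h1 : (b : ℚ) ^ e ≤ (b : ℚ) ^ (-1 : ℤ) := zpow_le_zpow_right₀ hb1.le (by omega)
    rw [zpow_neg_one] at h1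
    have h2 : a ≤ (b : ℚ)⁻¹ * a' := by
      rw [h]
      exact mul_le_mul_of_nonneg_right h1 (by linarith)
    have h3 : (b : ℚ)⁻¹ * a' < 1 := by
      rw [inv_mul_lt_iff₀ hb0, mul_one]
      exact ha2'
    linarith
  · rw [he, zpow_zero, one_mul] at h
    exact h
  · exfalso
    have h1 : (b : ℚ) ^ (1 : ℤ) ≤ (b : ℚ) ^ e := zpow_le_zpow_right₀ hb1.le (by omega)
    rw [zpow_one] at h1
    have h2 : (b : ℚ) * 1 ≤ (b : ℚ) ^ e * a' :=
      mul_le_mul h1 ha' zero_le_one (by positivity)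
    rw [← h] at h2
    linarith

/-- **Window independence for the multiples of algebraic numbers by `S`-units.** -/
theorem windows {n : ℕ} (ξ : Fin n → ℝ) (hξ : ∀ k, IsAlgebraic ℚ (ξ k))
    (hind : LinearIndependent ℚ (Fin.cons 1 ξ : Fin (n + 1) → ℝ)) (b : ℕ) (hb : 2 ≤ b)
    (S : Finset ℕ) (D E K C : ℕ) (ε : ℝ) (hε : 0 < ε) :
    ∃ M : ℕ, ∀ m : ℕ, M ≤ m → ∀ (κ : Fin D → Fin n) (r : Fin D → ℚ),
      Function.Injective (fun j => (κ j, r j)) →
      (∀ j, 1 ≤ r j ∧ (r j).num.natAbs.primeFactors ⊆ S ∧ (r j).den.primeFactors ⊆ S) →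
      (∀ j, (r j).num.natAbs ≤ b ^ (C * m)) →
      (∀ j k, κ j = κ k → ∀ u v : ℕ, 0 < u → u ≤ M → 0 < v → v ≤ M → ∀ s : ℤ,
        (u : ℚ) * (b : ℚ) ^ s * r j = v * r k → ∃ e : ℤ, r j = (b : ℚ) ^ e * r k) →
      ∀ lam : Fin D → ℝ, lam ≠ 0 → ∀ p : Fin E → ℕ, (∀ l, 0 < p l) →
      ((∑ l, p l : ℕ) : ℝ) ≤ (1 - ε) * m / (K + 1) →
      ∀ f : Fin E → ℕ → ℝ, (∀ l i, f l (i + p l) = f l i) →
      K < ((Finset.range m).filter (fun i =>
        ∑ j, lam j * (dig b (r j * ξ (κ j)) (i + 1) : ℝ) ≠ ∑ l, f l i)).card := by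
  classical
  have hb0 : 0 < b := by omega
  have hbQ1 : (1 : ℚ) < b := by exact_mod_cast (by omega : 1 < b)
  have hbQ0 : (0 : ℚ) < b := by linarith
  set S' : Finset ℕ := S.filter Nat.Prime ∪ b.primeFactors with hS'
  have hS'p : ∀ p ∈ S', p.Prime := by
    intro p hp
    rcases Finset.mem_union.1 hp with h | h
    · exact (Finset.mem_filter.1 h).2
    · exact Nat.prime_of_mem_primeFactors h
  have hbS' : b.primeFactors ⊆ S' := Finset.subset_union_right
  have hSS' : ∀ a : ℕ, a ≠ 0 → a.primeFactors ⊆ S → Smooth S' a := by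
    intro a ha h
    refine ⟨ha, fun p hp => ?_⟩
    exact Finset.mem_union_left _ (Finset.mem_filter.2 ⟨h hp, Nat.prime_of_mem_primeFactors hp⟩)
  obtain ⟨D', H', C', R, M1, hR, hgen⟩ := generalR b hb b D E K C ε hε
  obtain ⟨M2, hinp⟩ := input ξ hξ hind b hb S' hS'p hbS' R (2 * C) D D' H' C' hR
  refine ⟨max M1 M2, ?_⟩
  intro m hm κ r hinj hr hrC hsep lam hlam p hp hsum f hf
  -- the rows
  have hfac : ∀ j, ∃ t : ℕ, (b : ℚ) ^ t ≤ r j ∧ r j < (b : ℚ) ^ (t + 1) := fun j =>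
    exists_nat_pow_near (hr j).1 hbQ1
  choose t ht1 ht2 using hfac
  set a : Fin D → ℚ := fun j => r j / (b : ℚ) ^ (t j) with ha
  have hra : ∀ j, r j = (b : ℚ) ^ (t j) * a j := by
    intro j
    simp only [ha]
    field_simp
  have ha1 : ∀ j, 1 ≤ a j := by
    intro j
    simp only [ha]
    rw [le_div_iff₀ (by positivity), one_mul]
    exact ht1 j
  have ha2 : ∀ j, a j < b := by
    intro j
    simp only [ha]
    rw [div_lt_iff₀ (by positivity), mul_comm, ← pow_succ]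
    exact ht2 j
  have hr0 : ∀ j, 0 < r j := fun j => lt_of_lt_of_le one_pos (hr j).1
  have hrn0 : ∀ j, (r j).num.natAbs ≠ 0 := by
    intro j h0
    rw [Int.natAbs_eq_zero, Rat.num_eq_zero] at h0
    exact (hr0 j).ne' h0
  have hrnum : ∀ j, (((r j).num.natAbs : ℕ) : ℤ) = (r j).num := fun j =>
    Int.natAbs_of_nonneg (Rat.num_pos.2 (hr0 j)).le
  -- numerator and denominator of `a j`
  have haq : ∀ j, a j = Rat.divInt (r j).num (((r j).den * b ^ (t j) : ℕ) : ℤ) := by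
    intro j
    rw [Rat.divInt_eq_div]
    simp only [ha]
    push_cast
    rw [← div_div, Rat.num_div_den]
  have hdenpos : ∀ j, (r j).den * b ^ (t j) ≠ 0 := fun j =>
    mul_ne_zero (r j).den_ne_zero (pow_ne_zero _ (by omega))
  have hadvd1 : ∀ j, (a j).num.natAbs ∣ (r j).num.natAbs := by
    intro j
    have h1 := Rat.num_dvd (r j).num (b := (((r j).den * b ^ (t j) : ℕ) : ℤ))
      (by exact_mod_cast hdenpos j)
    rw [← haq j] at h1
    exact Int.natAbs_dvd_natAbs.2 h1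
  have hadvd2 : ∀ j, (a j).den ∣ (r j).den * b ^ (t j) := by
    intro j
    have h1 := Rat.den_dvd (r j).num (((r j).den * b ^ (t j) : ℕ) : ℤ)
    rw [← haq j] at h1
    exact_mod_cast h1
  have haS : ∀ j, SmoothQ S' (a j) := by
    intro j
    refine ⟨lt_of_lt_of_le one_pos (ha1 j), ?_, ?_⟩
    · exact (hSS' _ (hrn0 j) (hr j).2.1).of_dvd (hadvd1 j)
    · exact ((hSS' _ (r j).den_ne_zero (hr j).2.2).mul
        (Smooth.pow ⟨by omega, hbS'⟩ _)).of_dvd (hadvd2 j)
  have hrden : ∀ j, (r j).den ≤ (r j).num.natAbs := by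
    intro j
    have h1 : ((r j).den : ℚ) ≤ (r j).num := by
      have h2 := (hr j).1
      have h3 : (0 : ℚ) < (r j).den := by exact_mod_cast (r j).den_pos
      rw [← Rat.num_div_den (r j), le_div_iff₀ h3, one_mul] at h2
      exact h2
    have h2 : ((r j).den : ℤ) ≤ (r j).num := by exact_mod_cast h1
    have h3 := hrnum j
    omega
  have htC : ∀ j, t j ≤ C * m := by
    intro j
    have h1 : (b : ℚ) ^ t j ≤ (r j).num := by
      refine (ht1 j).trans ?_
      have h3 : (1 : ℚ) ≤ (r j).den := by exact_mod_cast (r j).den_pos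
      have h4 : (r j) * 1 ≤ (r j) * (r j).den := mul_le_mul_of_nonneg_left h3 (hr0 j).le
      rw [Rat.mul_den_eq_num, mul_one] at h4
      exact h4
    have h2 : (b : ℤ) ^ t j ≤ (r j).num := by exact_mod_cast h1
    rw [← hrnum j] at h2
    have h3 : b ^ t j ≤ (r j).num.natAbs := by exact_mod_cast h2
    exact (Nat.pow_le_pow_iff_right (by omega)).1 (h3.trans (hrC j))
  have han : ∀ j, (a j).num.natAbs ≤ b ^ (2 * C * m) := by
    intro j
    calc (a j).num.natAbs ≤ (r j).num.natAbs :=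
          Nat.le_of_dvd (Nat.pos_of_ne_zero (hrn0 j)) (hadvd1 j)
      _ ≤ b ^ (C * m) := hrC j
      _ ≤ b ^ (2 * C * m) := Nat.pow_le_pow_right hb0 (by nlinarith)
  have had : ∀ j, (a j).den ≤ b ^ (2 * C * m) := by
    intro j
    calc (a j).den ≤ (r j).den * b ^ (t j) :=
          Nat.le_of_dvd (Nat.pos_of_ne_zero (hdenpos j)) (hadvd2 j)
      _ ≤ b ^ (C * m) * b ^ (C * m) :=
          Nat.mul_le_mul ((hrden j).trans (hrC j)) (Nat.pow_le_pow_right hb0 (htC j))
      _ = b ^ (2 * C * m) := by rw [← pow_add]; congr 1; ring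
  set w : Fin D → Fin n × ℚ := fun j => (κ j, a j) with hw
  have hTmem : ∀ q ∈ Finset.univ.image w, ∃ j, w j = q := by
    intro q hq
    obtain ⟨j, _, hj⟩ := Finset.mem_image.1 hq
    exact ⟨j, hj⟩
  have hdigeq : ∀ j i, dig b (r j * ξ (κ j)) (i + 1) =
      dig b ((a j : ℝ) * ξ (κ j)) (t j + i + 1) := by
    intro j i
    unfold dig
    congr 2
    have h1 : (r j : ℝ) = (b : ℝ) ^ (t j) * (a j : ℝ) := by
      exact_mod_cast congrArg (Rat.cast (K := ℝ)) (hra j)
    rw [h1, show t j + i + 1 = t j + (i + 1) by ring, pow_add]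
    ring
  have hmain := hgen (Fin n × ℚ) (fun q => (q.2 : ℝ) * ξ q.1)
    (fun q i => dig b ((q.2 : ℝ) * ξ q.1) i)
    (fun q i => Int.fract ((q.2 : ℝ) * ξ q.1 * (b : ℝ) ^ i)) w
    (fun j i => dig_abs hb _ _)
    (fun j i => by
      rw [abs_of_nonneg (Int.fract_nonneg _)]
      have h1 := (Int.fract_lt_one ((w j).2 * ξ (w j).1 * (b : ℝ) ^ i)).le
      have h2 : (1 : ℝ) ≤ b := by exact_mod_cast hb0
      linarith)
    (fun j i => dig_rec hb _ _)
    (fun j i => ⟨⌊(w j).2 * ξ (w j).1 * (b : ℝ) ^ i⌋, by rw [Int.self_sub_fract]⟩)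
    m ((le_max_left _ _).trans hm)
    (hinp m ((le_max_right _ _).trans hm) (Finset.univ.image w)
      (Finset.card_image_le.trans (by simp))
      (by intro q hq; obtain ⟨j, rfl⟩ := hTmem q hq; exact haS j)
      (by intro q hq; obtain ⟨j, rfl⟩ := hTmem q hq; exact ha1 j)
      (by intro q hq; obtain ⟨j, rfl⟩ := hTmem q hq; exact han j)
      (by intro q hq; obtain ⟨j, rfl⟩ := hTmem q hq; exact had j)
      (by
        intro q hq q' hq' h1 u v hu0 hu hv0 hv s huv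
        obtain ⟨j, rfl⟩ := hTmem q hq
        obtain ⟨k, rfl⟩ := hTmem q' hq'
        simp only [hw] at h1 huv ⊢
        obtain ⟨e, he⟩ := hsep j k h1 u v hu0 (hu.trans (le_max_right _ _)) hv0
          (hv.trans (le_max_right _ _)) (s + t k - t j) (by
            rw [hra j, hra k, zpow_sub₀ hbQ0.ne', zpow_add₀ hbQ0.ne', zpow_natCast, zpow_natCast]
            have h2 : (b : ℚ) ^ t j ≠ 0 := pow_ne_zero _ hbQ0.ne'
            have h3 : (u : ℚ) * ((b : ℚ) ^ s * (b : ℚ) ^ t k / (b : ℚ) ^ t j) *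
                ((b : ℚ) ^ t j * a j) = (u * (b : ℚ) ^ s * a j) * (b : ℚ) ^ t k := by
              field_simp
            rw [h3, huv]
            ring)
        refine zpow_eq_of_mem hb (ha1 j) (ha2 j) (ha1 k) (ha2 k) (e := e + t k - t j) ?_
        rw [hra j, hra k] at he
        rw [zpow_sub₀ hbQ0.ne', zpow_add₀ hbQ0.ne', zpow_natCast, zpow_natCast]
        have h2 : (b : ℚ) ^ t j ≠ 0 := pow_ne_zero _ hbQ0.ne'
        field_simp
        linear_combination he))
    t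
    (by
      intro j k hjk
      simp only [hw, Prod.mk.injEq] at hjk
      obtain ⟨⟨h1, h2⟩, h3⟩ := hjk
      apply hinj
      simp only [Prod.mk.injEq]
      refine ⟨h1, ?_⟩
      rw [hra j, hra k, h2, h3])
    htC lam hlam p hp hsum f hf
  refine lt_of_lt_of_le hmain (le_of_eq ?_)
  congr 1
  apply Finset.filter_congr
  intro i _
  simp only [hdigeq, hw]

end Pool.Agent.TH419.WI
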