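import Mathlib
import Pool.Agent.TH419.WI.GeneralD
import Pool.Agent.TH419.WI.Classes
import Pool.Agent.TH932.S2.Pw

set_option autoImplicit false

open Finset Polynomial

namespace Pool.Agent.TH419.WI

open Pool.Agent.H648R2.S

/-- `A0 p ^ N`, shifted into the interval `[1, b)` -/
noncomputable def rowB (A0 p b N : ℕ) : ℝ := ((A0 * p ^ N : ℕ) : ℝ) / (b : ℝ) ^ (Nat.log b (A0 * p ^ N))

lemma near_powB {p q α β : ℕ} (hp : 2 ≤ p) (hq : 2 ≤ q) (hβ : 1 ≤ β) (hpq : p.Coprime q)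
    {u v N N' s s' M M1 : ℕ}
    (hu : u ≤ M1) (hu0 : 0 < u) (hv : v ≤ M1) (hv0 : 0 < v) (hM : (1 + α) * M1 ≤ M)
    (h : u * (p ^ N * (p ^ α * q ^ β) ^ s) = v * (p ^ N' * (p ^ α * q ^ β) ^ s'))
    (hN : N + M ≤ N') : False := by
  have hM1 : M1 < 2 ^ M1 := Nat.lt_pow_self (by omega)
  have hpow : ∀ x k : ℕ, 2 ≤ x → 2 ^ k ≤ x ^ k := fun x k hx => Nat.pow_le_pow_left hx k
  have h0 : u * (p ^ (N + α * s) * q ^ (β * s)) = v * (p ^ (N' + α * s') * q ^ (β * s')) := by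
    calc u * (p ^ (N + α * s) * q ^ (β * s)) = u * (p ^ N * (p ^ α * q ^ β) ^ s) := by
          rw [mul_pow, ← pow_mul, ← pow_mul, pow_add]; ring
      _ = v * (p ^ N' * (p ^ α * q ^ β) ^ s') := h
      _ = v * (p ^ (N' + α * s') * q ^ (β * s')) := by
          rw [mul_pow, ← pow_mul, ← pow_mul, pow_add]; ring
  -- a power of `p` divides `u`
  have key : ∀ d : ℕ, N + α * s + d ≤ N' + α * s' → p ^ d ∣ u := by
    intro d hd
    obtain ⟨e, he⟩ := Nat.exists_eq_add_of_le hd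
    have h1 : p ^ (N + α * s) * (u * q ^ (β * s)) =
        p ^ (N + α * s) * (p ^ d * (p ^ e * v * q ^ (β * s'))) := by
      calc p ^ (N + α * s) * (u * q ^ (β * s)) = u * (p ^ (N + α * s) * q ^ (β * s)) := by ring
        _ = v * (p ^ (N' + α * s') * q ^ (β * s')) := h0
        _ = p ^ (N + α * s) * (p ^ d * (p ^ e * v * q ^ (β * s'))) := by rw [he]; ring
    have h2 := Nat.eq_of_mul_eq_mul_left (pow_pos (by omega) _) h1
    have h3 : p ^ d ∣ u * q ^ (β * s) := ⟨_, h2⟩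
    exact (Nat.Coprime.pow d (β * s) hpq).dvd_of_dvd_mul_right h3
  have hM1M : M1 ≤ M := by
    calc M1 ≤ (1 + α) * M1 := Nat.le_mul_of_pos_left _ (by omega)
      _ ≤ M := hM
  rcases le_or_gt s s' with hs | hs
  · have h1 : α * s ≤ α * s' := Nat.mul_le_mul_left _ hs
    have h2 := Nat.le_of_dvd hu0 (key M1 (by omega))
    have h3 := hpow p M1 hp
    omega
  · obtain ⟨d, hd⟩ := Nat.exists_eq_add_of_lt hs
    -- a power of `q` divides `v`
    have h1 : q ^ (β * s') * (v * p ^ (N' + α * s')) =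
        q ^ (β * s') * (q ^ (β * (d + 1)) * (u * p ^ (N + α * s))) := by
      calc q ^ (β * s') * (v * p ^ (N' + α * s')) = v * (p ^ (N' + α * s') * q ^ (β * s')) := by ring
        _ = u * (p ^ (N + α * s) * q ^ (β * s)) := h0.symm
        _ = q ^ (β * s') * (q ^ (β * (d + 1)) * (u * p ^ (N + α * s))) := by
            rw [show β * s = β * s' + β * (d + 1) by rw [hd]; ring, pow_add]; ring
    have h2 := Nat.eq_of_mul_eq_mul_left (pow_pos (by omega) _) h1
    have h3 : q ^ (β * (d + 1)) ∣ v :=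
      (Nat.Coprime.pow _ _ hpq.symm).dvd_of_dvd_mul_right ⟨_, h2⟩
    have h4 := Nat.le_of_dvd hv0 h3
    have h5 : d + 1 < 2 ^ (d + 1) := Nat.lt_pow_self (by omega)
    have h6 : 2 ^ (d + 1) ≤ q ^ (β * (d + 1)) :=
      (hpow q (d + 1) hq).trans (Nat.pow_le_pow_right (by omega) (Nat.le_mul_of_pos_left _ hβ))
    have h7 : α * (d + 1) ≤ α * M1 := Nat.mul_le_mul_left _ (by omega)
    have h8 : α * s = α * s' + α * (d + 1) := by rw [hd]; ring
    have h9 : (1 + α) * M1 = M1 + α * M1 := by ring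
    have h10 := Nat.le_of_dvd hu0 (key M1 (by omega))
    have h11 := hpow p M1 hp
    omega

lemma log_le_mulB {A0 p b : ℕ} (hp : 2 ≤ p) (hb : 2 ≤ b) (hA0 : 0 < A0) (N : ℕ) :
    Nat.log b (A0 * p ^ N) ≤ A0 + p * N := by
  have h1 : b ^ Nat.log b (A0 * p ^ N) ≤ A0 * p ^ N :=
    Nat.pow_log_le_self b (mul_pos hA0 (pow_pos (by omega) N)).ne'
  have h2 : 2 ^ Nat.log b (A0 * p ^ N) ≤ 2 ^ (A0 + p * N) := by
    calc 2 ^ Nat.log b (A0 * p ^ N) ≤ b ^ Nat.log b (A0 * p ^ N) := Nat.pow_le_pow_left hb _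
      _ ≤ A0 * p ^ N := h1
      _ ≤ 2 ^ A0 * (2 ^ p) ^ N := Nat.mul_le_mul (Nat.lt_pow_self (by omega)).le
          (Nat.pow_le_pow_left (Nat.lt_pow_self (by omega)).le _)
      _ = 2 ^ (A0 + p * N) := by rw [← pow_mul, ← pow_add]
  exact (Nat.pow_le_pow_iff_right (by omega)).1 h2

/-- the arithmetic input for the numbers `A0 p ^ N` in base `b = p ^ α q ^ β` -/
theorem inputB (p q α β b A0 : ℕ) (hp : 2 ≤ p) (hq : 2 ≤ q) (hpq : p.Coprime q) (hβ : 1 ≤ β)
    (hbe : b = p ^ α * q ^ β) (hA0 : 0 < A0) (D D' H' C R : ℕ) (hR : 0 < R) :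
    ∃ M : ℕ, ∀ m : ℕ, M ≤ m → ∀ T : Finset ℕ, T.card ≤ D → (∀ N ∈ T, N ≤ C * m) →
      (∀ N ∈ T, ∀ N' ∈ T, N ≠ N' → N + M ≤ N' ∨ N' + M ≤ N) →
      (∀ N ∈ T, m / R ≤ Nat.log b (A0 * p ^ N)) →
      ∀ Q : ℕ → ℤ[X], (∀ N ∈ T, (Q N).support.card ≤ D') →
        (∀ N ∈ T, ∀ i, |(Q N).coeff i| ≤ H') →
        (∀ N ∈ T, (Q N).natDegree ≤ Nat.log b (A0 * p ^ N) - m / R) →
        (∃ N ∈ T, (Q N).eval (b : ℤ) ≠ 0) → ∀ P : ℤ,
        Real.exp (-(1 / 4 * ((m / R / 2 : ℕ) * Real.log b))) <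
          |∑ N ∈ T, rowB A0 p b N *
            ((b : ℝ) ^ (m / R / 2) * (((Q N).eval (b : ℤ) : ℤ) : ℝ)) - P| := by
  classical
  have hqb : q ≤ b := by
    rw [hbe]
    calc q = 1 * q ^ 1 := by ring
      _ ≤ p ^ α * q ^ β := Nat.mul_le_mul (Nat.one_le_pow _ _ (by omega))
          (Nat.pow_le_pow_right (by omega) hβ)
  have hb : 2 ≤ b := hq.trans hqb
  have hqR : (2 : ℝ) ≤ q := by exact_mod_cast hq
  have hbR : (2 : ℝ) ≤ b := by exact_mod_cast hb
  have hb0 : (0 : ℝ) < b := by linarith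
  have hlogq : 0 < Real.log q := Real.log_pos (by linarith)
  have hlogqb : Real.log q ≤ Real.log b := Real.log_le_log (by linarith) (by exact_mod_cast hqb)
  have hbZ : (b : ℤ) ≠ 0 := by omega
  have hpqI : IsCoprime (q : ℤ) (p : ℤ) := Nat.isCoprime_iff_coprime.2 hpq.symm
  set S : Finset ℕ := (p * q).primeFactors with hS
  have hSp : ∀ x ∈ S, x.Prime := fun x hx => Nat.prime_of_mem_primeFactors hx
  have hpq0 : p * q ≠ 0 := mul_ne_zero (by omega) (by omega)
  have hpS : Smooth S p := ⟨by omega, Nat.primeFactors_mono (Dvd.intro q rfl) hpq0⟩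
  have hqS : Smooth S q := ⟨by omega, Nat.primeFactors_mono (Dvd.intro_left p rfl) hpq0⟩
  have hpow : ∀ {a : ℕ}, Smooth S a → ∀ i, Smooth S (a ^ i) := by
    intro a ha i
    induction i with
    | zero => exact ⟨by simp, by simp⟩
    | succ i ih =>
      rw [pow_succ]
      refine ⟨mul_ne_zero ih.1 ha.1, ?_⟩
      rw [Nat.primeFactors_mul ih.1 ha.1]
      exact Finset.union_subset ih.2 ha.2
  have hmulS : ∀ {a b : ℕ}, Smooth S a → Smooth S b → Smooth S (a * b) := by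
    intro a b ha hb
    refine ⟨mul_ne_zero ha.1 hb.1, ?_⟩
    rw [Nat.primeFactors_mul ha.1 hb.1]
    exact Finset.union_subset ha.2 hb.2
  have hbS : Smooth S b := by rw [hbe]; exact hmulS (hpow hpS _) (hpow hqS _)
  set G : ℕ := A0 + 4 * R * p * C with hG
  set C0 : ℕ := 4 * R * C + (α + β) * (2 * G + 1) + 1 with hC0
  set η : ℝ := 1 / 4 * Real.log q with hη
  have hη0 : 0 < η := by positivity
  choose δ hδ n0 hfin using fun k => Pool.Agent.TH932.S2.Pw.fin hp hq hpqI k (C0 : ℝ) η hη0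
  set n1 : ℕ := (Finset.range (D * D' + 1)).sup
    (fun k => max (n0 k) ⌈((A0 * H' : ℕ) : ℝ) / δ k⌉₊) with hn1
  obtain ⟨M1, hM1⟩ := classes S hSp (D * D') (A0 * H')
  refine ⟨max ((1 + α) * M1) (R * (2 * (n1 + A0 + 1))), ?_⟩
  intro m hm T hTD hTC hsep hTm Q hQ1 hQ2 hQ3 ⟨N0, hN0, hN0e⟩ P
  by_contra hcon
  push Not at hcon
  set L : ℕ := m / R / 2 with hL
  set V : ℕ → ℕ := fun N => Nat.log b (A0 * p ^ N) with hV
  set W : ℕ := T.sup V with hW
  have hmR : 2 * (n1 + A0 + 1) ≤ m / R := by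
    rw [Nat.le_div_iff_mul_le hR, mul_comm]
    exact (le_max_right _ _).trans hm
  have hL1 : n1 + A0 + 1 ≤ L := by omega
  have hL2 : m / R ≤ 2 * L + 1 := by omega
  have hL3 : 2 * L ≤ m / R := by omega
  have hm2 : m ≤ 4 * R * L := by
    have h1 : m < (m / R + 1) * R := by
      have := Nat.lt_div_mul_add (a := m) hR
      rw [Nat.add_mul, one_mul]; omega
    have h2 : (m / R + 1) * R ≤ (2 * L + 1 + 1) * R := Nat.mul_le_mul_right _ (by omega)
    have h3 : (2 * L + 1 + 1) * R ≤ (4 * L) * R := Nat.mul_le_mul_right _ (by omega)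
    calc m ≤ (4 * L) * R := by omega
      _ = 4 * R * L := by ring
  have hVW : ∀ N ∈ T, V N ≤ W := fun N hN => Finset.le_sup (f := V) hN
  have hTCL : ∀ N ∈ T, N ≤ 4 * R * C * L := by
    intro N hN
    calc N ≤ C * m := hTC N hN
      _ ≤ C * (4 * R * L) := Nat.mul_le_mul_left _ hm2
      _ = 4 * R * C * L := by ring
  have hVb : ∀ N ∈ T, V N ≤ G * L := by
    intro N hN
    calc V N ≤ A0 + p * N := log_le_mulB hp hb hA0 N
      _ ≤ A0 * L + p * (4 * R * C * L) := Nat.add_le_add (Nat.le_mul_of_pos_right _ (by omega))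
          (Nat.mul_le_mul_left _ (hTCL N hN))
      _ = G * L := by rw [hG]; ring
  have hWb : W ≤ G * L := Finset.sup_le hVb
  have hpowV : ∀ N, b ^ V N ≤ A0 * p ^ N := fun N =>
    Nat.pow_log_le_self b (mul_pos hA0 (pow_pos (by omega) _)).ne'
  -- the terms
  set A : ℕ → ℕ := fun N => p ^ N * b ^ (W - V N) with hA
  have hrowA : ∀ N ∈ T, ((A0 * A N : ℕ) : ℝ) = rowB A0 p b N * (b : ℝ) ^ W := by
    intro N hN
    simp only [hA, rowB, hV]
    push_cast
    rw [div_mul_eq_mul_div, mul_div_assoc, ← mul_assoc]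
    congr 1
    rw [eq_div_iff (by positivity), ← pow_add]
    congr 1
    have := hVW N hN
    simp only [hV] at this
    omega
  set T' : Finset (Σ _ : ℕ, ℕ) := T.sigma (fun N => (Q N).support) with hT'
  have hT'card : T'.card ≤ D * D' := by
    rw [hT', Finset.card_sigma]
    calc ∑ q ∈ T, (Q q).support.card ≤ ∑ q ∈ T, D' :=
          Finset.sum_le_sum fun q hq => hQ1 q hq
      _ = T.card * D' := by rw [Finset.sum_const, smul_eq_mul]
      _ ≤ D * D' := Nat.mul_le_mul_right _ hTD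
  have hinner : ∀ N, ∑ i ∈ (Q N).support, ((A N * b ^ (L + i) : ℕ) : ℤ) *
      ((A0 : ℤ) * (Q N).coeff i) =
      ((A0 * A N : ℕ) : ℤ) * ((b : ℤ) ^ L * (Q N).eval (b : ℤ)) := by
    intro N
    rw [eval_eq_sum, Polynomial.sum_def, Finset.mul_sum, Finset.mul_sum]
    apply Finset.sum_congr rfl
    intro i _
    push_cast
    rw [pow_add]; ring
  have hval : ∑ z ∈ T', ((A z.1 * b ^ (L + z.2) : ℕ) : ℤ) * ((A0 : ℤ) * (Q z.1).coeff z.2) =
      ∑ N ∈ T, ((A0 * A N : ℕ) : ℤ) * ((b : ℤ) ^ L * (Q N).eval (b : ℤ)) := by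
    rw [hT', Finset.sum_sigma]
    exact Finset.sum_congr rfl fun N _ => hinner N
  set x : ℤ := ∑ z ∈ T', ((A z.1 * b ^ (L + z.2) : ℕ) : ℤ) * ((A0 : ℤ) * (Q z.1).coeff z.2) -
    (b : ℤ) ^ W * P with hx
  have hxR : (x : ℝ) = (b : ℝ) ^ W * (∑ N ∈ T, rowB A0 p b N *
      ((b : ℝ) ^ L * (((Q N).eval (b : ℤ) : ℤ) : ℝ)) - P) := by
    rw [hx, hval, Int.cast_sub, Int.cast_sum, mul_sub, Finset.mul_sum]
    congr 1
    · apply Finset.sum_congr rfl
      intro N hN
      rw [Int.cast_mul, Int.cast_natCast, hrowA N hN]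
      push_cast
      ring
    · push_cast
      ring
  have hxb : |(x : ℝ)| * Real.exp (η * L) ≤ (b : ℝ) ^ W := by
    rw [hxR, abs_mul, abs_of_pos (by positivity : (0 : ℝ) < (b : ℝ) ^ W), mul_assoc]
    have h1 : |∑ N ∈ T, rowB A0 p b N * ((b : ℝ) ^ L * (((Q N).eval (b : ℤ) : ℤ) : ℝ)) - P| *
        Real.exp (η * L) ≤ 1 := by
      calc _ ≤ Real.exp (-(1 / 4 * ((L : ℕ) * Real.log b))) * Real.exp (η * L) :=
            mul_le_mul_of_nonneg_right hcon (Real.exp_pos _).le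
        _ ≤ 1 := by
            rw [← Real.exp_add, Real.exp_le_one_iff, hη]
            have h2 : (L : ℝ) * Real.log q ≤ L * Real.log b :=
              mul_le_mul_of_nonneg_left hlogqb (Nat.cast_nonneg _)
            linarith
    calc (b : ℝ) ^ W * _ ≤ (b : ℝ) ^ W * 1 := mul_le_mul_of_nonneg_left h1 (by positivity)
      _ = (b : ℝ) ^ W := mul_one _
  -- the exponents
  set sz : (Σ _ : ℕ, ℕ) → ℕ := fun z => W - V z.1 + (L + z.2) with hsz
  have hexp : ∀ z ∈ T', sz z + L ≤ W ∧ sz z ≤ (2 * G + 1) * L := by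
    intro z hz
    obtain ⟨hz1, hz2⟩ := Finset.mem_sigma.1 hz
    have h1 : z.2 ≤ V z.1 - m / R := (le_natDegree_of_mem_supp _ hz2).trans (hQ3 _ hz1)
    have h2 := hVW _ hz1
    have h3 : m / R ≤ V z.1 := hTm _ hz1
    have h4 := hVb _ hz1
    have h5 : (2 * G + 1) * L = G * L + G * L + L := by ring
    simp only [hsz]
    refine ⟨by omega, by omega⟩
  -- the finite family
  let f : Fin T'.card ≃ T' := T'.equivFin.symm
  have hsumf : ∀ F : (Σ _ : ℕ, ℕ) → ℤ, ∑ i : Fin T'.card, F (f i) = ∑ z ∈ T', F z := by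
    intro F
    rw [← Finset.sum_coe_sort T' F]
    exact Equiv.sum_comp f (fun i : T' => F (i : Σ _ : ℕ, ℕ))
  have hkle : max (n0 T'.card) ⌈((A0 * H' : ℕ) : ℝ) / δ T'.card⌉₊ ≤ L := by
    refine le_trans ?_ (by omega : n1 ≤ L)
    exact Finset.le_sup (f := fun k => max (n0 k) ⌈((A0 * H' : ℕ) : ℝ) / δ k⌉₊)
      (Finset.mem_range.2 (by omega))
  have hHle : ((A0 * H' : ℕ) : ℝ) ≤ Real.exp (δ T'.card * L) := by
    have h1 : ((A0 * H' : ℕ) : ℝ) / δ T'.card ≤ L := by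
      refine (Nat.le_ceil _).trans ?_
      exact_mod_cast (le_max_right _ _).trans hkle
    rw [div_le_iff₀ (hδ _)] at h1
    have h2 := Real.add_one_le_exp (δ T'.card * L)
    have h3 : (L : ℝ) * δ T'.card = δ T'.card * L := by ring
    linarith
  have hcb : ∀ z ∈ T', |(A0 : ℤ) * (Q z.1).coeff z.2| ≤ ((A0 * H' : ℕ) : ℤ) := by
    intro z hz
    obtain ⟨hz1, hz2⟩ := Finset.mem_sigma.1 hz
    rw [abs_mul, Nat.cast_mul]
    refine mul_le_mul ?_ (hQ2 _ hz1 _) (abs_nonneg _) (Nat.cast_nonneg _)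
    rw [abs_of_nonneg (by positivity)]
  have hAsz : ∀ z : (Σ _ : ℕ, ℕ), A z.1 * b ^ (L + z.2) = p ^ (z.1 + α * sz z) * q ^ (β * sz z) := by
    intro z
    simp only [hA]
    calc p ^ z.1 * b ^ (W - V z.1) * b ^ (L + z.2) = p ^ z.1 * b ^ (sz z) := by
          rw [mul_assoc, ← pow_add]
      _ = p ^ (z.1 + α * sz z) * q ^ (β * sz z) := by
          rw [hbe, mul_pow, ← pow_mul, ← pow_mul, pow_add]; ring
  have hterm : ∀ z : (Σ _ : ℕ, ℕ), ((A z.1 * b ^ (L + z.2) : ℕ) : ℤ) *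
      ((A0 : ℤ) * (Q z.1).coeff z.2) =
      ((A0 : ℤ) * (Q z.1).coeff z.2) * ((p : ℤ) ^ (z.1 + α * sz z) * (q : ℤ) ^ (β * sz z)) := by
    intro z
    rw [hAsz z]
    push_cast
    ring
  have hbW : (p : ℤ) ^ (α * W) * (q : ℤ) ^ (β * W) = (b : ℤ) ^ W := by
    rw [hbe]; push_cast; rw [mul_pow, ← pow_mul, ← pow_mul]
  have hbWR : (p : ℝ) ^ (α * W) * (q : ℝ) ^ (β * W) = (b : ℝ) ^ W := by
    rw [hbe]; push_cast; rw [mul_pow, ← pow_mul, ← pow_mul]
  have hαC : ∀ k : ℕ, k ≤ (2 * G + 1) * L → α * k ≤ (α + β) * (2 * G + 1) * L ∧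
      β * k ≤ (α + β) * (2 * G + 1) * L := by
    intro k hk
    constructor
    · calc α * k ≤ (α + β) * ((2 * G + 1) * L) := Nat.mul_le_mul (by omega) hk
        _ = _ := by ring
    · calc β * k ≤ (α + β) * ((2 * G + 1) * L) := Nat.mul_le_mul (by omega) hk
        _ = _ := by ring
  have hC0L : C0 * L = 4 * R * C * L + (α + β) * (2 * G + 1) * L + L := by rw [hC0]; ring
  have hWG : W ≤ (2 * G + 1) * L := by
    have h5 : (2 * G + 1) * L = G * L + G * L + L := by ring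
    omega
  have hzero := hfin T'.card L ((le_max_left _ _).trans hkle) (fun i => (f i).1.1 + α * sz (f i))
    (fun i => β * sz (f i)) (fun i => (A0 : ℤ) * (Q (f i).1.1).coeff (f i).1.2) x (α * W) (β * W)
    (by
      intro i
      obtain ⟨hz1, hz2⟩ := Finset.mem_sigma.1 (f i).2
      have h1 := hTCL _ hz1
      have h2 := hαC _ (hexp _ (f i).2).2
      refine ⟨?_, ?_, ?_⟩
      · have h3 : (f i).1.1 + α * sz (f i) ≤ C0 * L := by omega
        exact_mod_cast h3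
      · have h3 : β * sz (f i) ≤ C0 * L := by omega
        exact_mod_cast h3
      · refine le_trans ?_ hHle
        have h3 := hcb _ (f i).2
        exact_mod_cast h3)
    (by
      have h3 : α * W ≤ C0 * L := by
        have := (hαC W hWG).1
        omega
      exact_mod_cast h3)
    (by
      have h3 : β * W ≤ C0 * L := by
        have := (hαC W hWG).2
        omega
      exact_mod_cast h3)
    (by
      rw [hsumf (fun z => ((A0 : ℤ) * (Q z.1).coeff z.2) *
        ((p : ℤ) ^ (z.1 + α * sz z) * (q : ℤ) ^ (β * sz z)))]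
      rw [← Finset.sum_congr rfl (fun z _ => hterm z), hx, sub_sub_cancel, hbW]
      exact Dvd.intro P rfl)
    (by
      rw [hbWR]
      exact hxb)
    (by
      intro i _
      have h1 := (hexp _ (f i).2).1
      obtain ⟨hz1, hz2⟩ := Finset.mem_sigma.1 (f i).2
      have h2 := hVW _ hz1
      constructor
      · refine hxb.trans ?_
        have h3 := hpowV (f i).1.1
        have h4 : A0 ≤ b ^ L := by
          calc A0 ≤ L := by omega
            _ ≤ b ^ L := (Nat.lt_pow_self (by omega)).le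
        have h5 : A0 * b ^ W ≤ A0 * (p ^ ((f i).1.1 + α * sz (f i)) * q ^ (β * sz (f i))) := by
          rw [← hAsz]
          calc A0 * b ^ W ≤ b ^ L * b ^ W := Nat.mul_le_mul_right _ h4
            _ = b ^ V (f i).1.1 * b ^ (W - V (f i).1.1) * b ^ L := by
                rw [← pow_add, ← pow_add, ← pow_add]; congr 1; omega
            _ ≤ (A0 * p ^ (f i).1.1) * b ^ (W - V (f i).1.1) * b ^ (L + (f i).1.2) :=
                Nat.mul_le_mul (Nat.mul_le_mul_right _ h3)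
                  (Nat.pow_le_pow_right (by omega) (by omega))
            _ = A0 * (A (f i).1.1 * b ^ (L + (f i).1.2)) := by simp only [hA]; ring
        have h6 := Nat.le_of_mul_le_mul_left h5 hA0
        exact_mod_cast h6
      · have h3 : ((sz (f i) : ℕ) : ℝ) + L ≤ W := by exact_mod_cast h1
        have h4 : (0 : ℝ) ≤ L := Nat.cast_nonneg _
        have h5 : (1 : ℝ) ≤ β := by exact_mod_cast hβ
        have h6 : (β : ℝ) * (((sz (f i) : ℕ) : ℝ) + L) * Real.log q ≤ β * W * Real.log q :=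
          mul_le_mul_of_nonneg_right (mul_le_mul_of_nonneg_left h3 (by linarith)) hlogq.le
        have h7 : 1 / 4 * Real.log q * L ≤ β * L * Real.log q := by
          have h8 : (0 : ℝ) ≤ L * Real.log q := by positivity
          nlinarith
        push_cast
        rw [hη]
        linarith)
  rw [hsumf (fun z => ((A0 : ℤ) * (Q z.1).coeff z.2) *
    ((p : ℤ) ^ (z.1 + α * sz z) * (q : ℤ) ^ (β * sz z))),
    ← Finset.sum_congr rfl (fun z _ => hterm z)] at hzero
  -- the classes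
  have hcl := hM1 (Σ _ : ℕ, ℕ) T' (fun z => A z.1 * b ^ (L + z.2))
    (fun z => (A0 : ℤ) * (Q z.1).coeff z.2) (fun z => z.1) hT'card
    (fun z _ => hmulS (hmulS (hpow hpS _) (hpow hbS _)) (hpow hbS _))
    hcb
    (by
      intro z hz z' hz' ⟨u, v, hu0, hu, hv0, hv, huv⟩
      obtain ⟨hz1, hz2⟩ := Finset.mem_sigma.1 hz
      obtain ⟨hz1', hz2'⟩ := Finset.mem_sigma.1 hz'
      by_contra hne
      have h0 : ∀ z : (Σ _ : ℕ, ℕ), A z.1 * b ^ (L + z.2) =
          p ^ z.1 * (p ^ α * q ^ β) ^ sz z := by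
        intro z
        simp only [hA]
        rw [mul_assoc, ← pow_add, ← hbe]
      have h1 : u * (p ^ z.1 * (p ^ α * q ^ β) ^ sz z) =
          v * (p ^ z'.1 * (p ^ α * q ^ β) ^ sz z') := by
        rw [← h0 z, ← h0 z']
        exact huv
      rcases hsep _ hz1 _ hz1' hne with h2 | h2
      · exact near_powB hp hq hβ hpq hu hu0 hv hv0 (le_max_left _ _) h1 h2
      · exact near_powB hp hq hβ hpq hv hv0 hu hu0 (le_max_left _ _) h1.symm h2)
    hzero N0
  have h2 : T'.filter (fun z => z.1 = N0) =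
      ({N0} : Finset ℕ).sigma (fun N => (Q N).support) := by
    ext z
    simp only [hT', Finset.mem_filter, Finset.mem_sigma, Finset.mem_singleton]
    constructor
    · rintro ⟨⟨_, h4⟩, h5⟩
      exact ⟨h5, h4⟩
    · rintro ⟨h3, h4⟩
      exact ⟨⟨by rw [h3]; exact hN0, h4⟩, h3⟩
  rw [h2, Finset.sum_sigma, Finset.sum_singleton] at hcl
  simp only at hcl
  rw [hinner N0] at hcl
  have h3 : ((A0 * A N0 : ℕ) : ℤ) ≠ 0 := by
    simp only [hA]
    exact_mod_cast mul_ne_zero hA0.ne' (mul_ne_zero (pow_ne_zero _ (by omega))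
      (pow_ne_zero _ (by omega)))
  exact mul_ne_zero h3 (mul_ne_zero (pow_ne_zero _ hbZ) hN0e) hcl

end Pool.Agent.TH419.WI
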