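import Mathlib
import Pool.Agent.TH419.WI.BaseB
import Pool.Agent.TH419.WI.PowersW

set_option autoImplicit false

open Finset Polynomial

namespace Pool.Agent.TH419.WI

open Pool.Agent.H648R2.S

/-- the digits of `A0 p ^ N` as digits of its row -/
lemma dig_rowB {A0 p b : ℕ} (hb : 2 ≤ b) (hp : 2 ≤ p) (hA0 : 0 < A0) (N t m i : ℕ) (hi : i < m)
    (ht : b ^ (t + m) ≤ A0 * p ^ N) :
    dig b (rowB A0 p b N) (Nat.log b (A0 * p ^ N) - (t + m) + i + 1) =
      ((A0 * p ^ N / b ^ (t + (m - 1 - i)) % b : ℕ) : ℤ) := by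
  have hb0 : (0 : ℝ) < b := by exact_mod_cast (by omega : 0 < b)
  have hV : t + m ≤ Nat.log b (A0 * p ^ N) := by
    rw [Nat.le_log_iff_pow_le (by omega) (mul_pos hA0 (pow_pos (by omega) N)).ne']
    exact ht
  have h1 : rowB A0 p b N * (b : ℝ) ^ (Nat.log b (A0 * p ^ N) - (t + m) + i + 1) =
      ((A0 * p ^ N : ℕ) : ℝ) / ((b ^ (t + (m - 1 - i)) : ℕ) : ℝ) := by
    unfold rowB
    rw [div_mul_eq_mul_div, div_eq_div_iff (by positivity) (by positivity)]
    push_cast
    rw [mul_assoc, ← pow_add]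
    congr 2
    omega
  unfold dig
  rw [h1, ← Int.natCast_floor_eq_floor (by positivity), Nat.floor_div_eq_div]
  push_cast
  rfl

/-- **Window independence for the numbers `A0 p ^ N` in base `b = p ^ α q ^ β`**, the words being
read from the top. -/
theorem windowsB (p q α β b A0 : ℕ) (hp : 2 ≤ p) (hq : 2 ≤ q) (hpq : p.Coprime q) (hβ : 1 ≤ β)
    (hbe : b = p ^ α * q ^ β) (hA0 : 0 < A0)
    (D E K C : ℕ) (ε : ℝ) (hε : 0 < ε) :
    ∃ M : ℕ, ∀ m : ℕ, M ≤ m → ∀ N t : Fin D → ℕ, Function.Injective (fun j => (N j, t j)) →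
      (∀ j, N j ≤ C * m) → (∀ j, b ^ (t j + m) ≤ A0 * p ^ (N j)) →
      (∀ i j, N i ≠ N j → N i + M ≤ N j ∨ N j + M ≤ N i) →
      ∀ lam : Fin D → ℝ, lam ≠ 0 → ∀ per : Fin E → ℕ, (∀ l, 0 < per l) →
      ((∑ l, per l : ℕ) : ℝ) ≤ (1 - ε) * m / (K + 1) →
      ∀ f : Fin E → ℕ → ℝ, (∀ l i, f l (i + per l) = f l i) →
      K < ((Finset.range m).filter (fun i =>
        ∑ j, lam j * ((A0 * p ^ (N j) / b ^ (t j + (m - 1 - i)) % b : ℕ) : ℝ) ≠
          ∑ l, f l i)).card := by
  classical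
  have hqb : q ≤ b := by
    rw [hbe]
    calc q = 1 * q ^ 1 := by ring
      _ ≤ p ^ α * q ^ β := Nat.mul_le_mul (Nat.one_le_pow _ _ (by omega))
          (Nat.pow_le_pow_right (by omega) hβ)
  have hb : 2 ≤ b := hq.trans hqb
  obtain ⟨D', H', R, M1, hR, hgen⟩ := generalD b hb b D E K ε hε
  obtain ⟨M2, hinp⟩ := inputB p q α β b A0 hp hq hpq hβ hbe hA0 D D' H' C R hR
  refine ⟨max M1 M2, ?_⟩
  intro m hm N t hinj hNC ht hsep lam hlam per hper hsum f hf
  have hV : ∀ j, t j + m ≤ Nat.log b (A0 * p ^ N j) := by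
    intro j
    rw [Nat.le_log_iff_pow_le (by omega) (mul_pos hA0 (pow_pos (by omega) _)).ne']
    exact ht j
  have hmR : m / R ≤ m := Nat.div_le_self _ _
  have hTmem : ∀ n ∈ Finset.univ.image N, ∃ j, N j = n := by
    intro n hn
    obtain ⟨j, _, hj⟩ := Finset.mem_image.1 hn
    exact ⟨j, hj⟩
  have hmain := hgen ℕ (fun n => rowB A0 p b n) (fun n i => dig b (rowB A0 p b n) i)
    (fun n i => Int.fract (rowB A0 p b n * (b : ℝ) ^ i)) N
    (fun j i => dig_abs hb _ _)
    (fun j i => by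
      rw [abs_of_nonneg (Int.fract_nonneg _)]
      have h1 := (Int.fract_lt_one (rowB A0 p b (N j) * (b : ℝ) ^ i)).le
      have h2 : (1 : ℝ) ≤ b := by exact_mod_cast (by omega : 1 ≤ b)
      linarith)
    (fun j i => dig_rec hb _ _)
    (fun j i => ⟨⌊rowB A0 p b (N j) * (b : ℝ) ^ i⌋, by rw [Int.self_sub_fract]⟩)
    m ((le_max_left _ _).trans hm) (fun n => Nat.log b (A0 * p ^ n) - m / R)
    (hinp m ((le_max_right _ _).trans hm) (Finset.univ.image N)
      (Finset.card_image_le.trans (by simp))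
      (by intro n hn; obtain ⟨j, rfl⟩ := hTmem n hn; exact hNC j)
      (by
        intro n hn n' hn' hne
        obtain ⟨i, rfl⟩ := hTmem n hn
        obtain ⟨j, rfl⟩ := hTmem n' hn'
        have h1 : M2 ≤ max M1 M2 := le_max_right _ _
        rcases hsep i j hne with h2 | h2
        · left; omega
        · right; omega)
      (by
        intro n hn
        obtain ⟨j, rfl⟩ := hTmem n hn
        have := hV j
        omega))
    (fun j => Nat.log b (A0 * p ^ N j) - (t j + m))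
    (by
      intro i j hij
      simp only [Prod.mk.injEq] at hij
      obtain ⟨h1, h2⟩ := hij
      apply hinj
      simp only [Prod.mk.injEq]
      refine ⟨h1, ?_⟩
      rw [h1] at h2
      have h3 := hV i
      have h4 := hV j
      rw [h1] at h3
      omega)
    (by
      intro j
      have := hV j
      omega)
    lam hlam per hper hsum f hf
  refine lt_of_lt_of_le hmain (le_of_eq ?_)
  congr 1
  apply Finset.filter_congr
  intro i hi
  have h1 : ∑ j, lam j *
      (dig b (rowB A0 p b (N j)) (Nat.log b (A0 * p ^ N j) - (t j + m) + i + 1) : ℝ) =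
      ∑ j, lam j * ((A0 * p ^ (N j) / b ^ (t j + (m - 1 - i)) % b : ℕ) : ℝ) :=
    Finset.sum_congr rfl fun j _ => by
      rw [dig_rowB hb hp hA0 (N j) (t j) m i (Finset.mem_range.1 hi) (ht j)]
      congr 1
  rw [h1]

end Pool.Agent.TH419.WI
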